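import Pool.Agent.Q82.Mob.Octa

/-!
# Graphs with more edges than the three-partite Turán graph
-/

set_option autoImplicit false

open SimpleGraph

namespace Q82.Mob

universe u

variable {V : Type u} [DecidableEq V] (G : SimpleGraph V) [DecidableRel G.Adj]

/-- The number of neighbours of `v` in `W`. -/
def dg (W : Finset V) (v : V) : ℕ := (W.filter fun u => G.Adj v u).card

/-- Twice the number of edges in `W`. -/
def DD (W : Finset V) : ℕ := ∑ v ∈ W, dg G W v

variable {G}

/-- `G` contains `K₅` or an induced complete multipartite graph with parts 2, 2, 1, 1. -/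
def FF (G : SimpleGraph V) : Prop :=
  (∃ K : Finset V, G.IsClique (K : Set V) ∧ K.card = 5) ∨ ∃ a x b y c d, Oct G a x b y c d

theorem dg_erase_self {W : Finset V} (v : V) : dg G (W.erase v) v = dg G W v := by
  unfold dg
  congr 1
  ext u
  simp only [Finset.mem_filter, Finset.mem_erase]
  constructor
  · rintro ⟨⟨-, h1⟩, h2⟩
    exact ⟨h1, h2⟩
  · rintro ⟨h1, h2⟩
    exact ⟨⟨h2.ne.symm, h1⟩, h2⟩

theorem dg_erase {W : Finset V} {v : V} (hv : v ∈ W) (u : V) :
    dg G W u = dg G (W.erase v) u + if G.Adj u v then 1 else 0 := by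
  unfold dg
  rw [Finset.card_filter, Finset.card_filter, ← Finset.sum_erase_add _ _ hv]

theorem DD_erase {W : Finset V} {v : V} (hv : v ∈ W) :
    DD G W = DD G (W.erase v) + 2 * dg G W v := by
  have h1 : ∑ u ∈ W.erase v, (if G.Adj u v then 1 else 0) = dg G W v := by
    rw [← dg_erase_self, dg, Finset.card_filter]
    exact Finset.sum_congr rfl fun u _ => by simp [G.adj_comm]
  unfold DD
  rw [← Finset.sum_erase_add _ _ hv, Finset.sum_congr rfl (fun u _ => dg_erase hv u),
    Finset.sum_add_distrib, h1]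
  ring

theorem dg_le {W : Finset V} {v : V} (hv : v ∈ W) : dg G W v + 1 ≤ W.card := by
  rw [← Finset.card_erase_add_one hv]
  refine Nat.add_le_add_right (Finset.card_le_card ?_) 1
  intro u hu
  rw [Finset.mem_filter] at hu
  rw [Finset.mem_erase]
  exact ⟨hu.2.ne.symm, hu.1⟩

theorem dg_le_two {W : Finset V} {v t : V} (hv : v ∈ W) (ht : t ∈ W) (hvt : v ≠ t)
    (h : ¬ G.Adj v t) : dg G W v + 2 ≤ W.card := by
  have h1 := dg_erase (G := G) ht v
  rw [if_neg h, add_zero] at h1
  have h2 := dg_le (G := G) (W := W.erase t) (v := v) (Finset.mem_erase.mpr ⟨hvt, hv⟩)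
  rw [← Finset.card_erase_add_one ht]
  omega

theorem dg_le_three {W : Finset V} {v s t : V} (hv : v ∈ W) (hs : s ∈ W) (ht : t ∈ W)
    (hvs : v ≠ s) (hvt : v ≠ t) (hst : s ≠ t) (h : ¬ G.Adj v s) (h' : ¬ G.Adj v t) :
    dg G W v + 3 ≤ W.card := by
  have h1 := dg_erase (G := G) ht v
  rw [if_neg h', add_zero] at h1
  have h2 := dg_le_two (G := G) (W := W.erase t) (v := v) (Finset.mem_erase.mpr ⟨hvt, hv⟩)
    (Finset.mem_erase.mpr ⟨hst, hs⟩) hvs h
  rw [← Finset.card_erase_add_one ht]
  omega

theorem sum_dg (K W : Finset V) : ∑ k ∈ K, dg G W k = ∑ w ∈ W, dg G K w := by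
  unfold dg
  simp only [Finset.card_filter]
  rw [Finset.sum_comm]
  refine Finset.sum_congr rfl fun w _ => Finset.sum_congr rfl fun k _ => ?_
  simp [G.adj_comm]

/-- A set with all possible edges is a clique. -/
theorem clique_of_DD {W : Finset V} {n : ℕ} (hn : W.card = n + 1) (h : (n + 1) * n ≤ DD G W) :
    G.IsClique (W : Set V) := by
  intro s hs t ht hst
  by_contra hno
  have h1 := dg_le_two (Finset.mem_coe.mp hs) (Finset.mem_coe.mp ht) hst hno
  have h2 : ∀ w ∈ W.erase s, dg G W w ≤ n := by
    intro w hw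
    have := dg_le (G := G) (Finset.mem_of_mem_erase hw)
    omega
  have h3 := Finset.sum_le_card_nsmul (W.erase s) (fun w => dg G W w) n h2
  rw [Finset.card_erase_of_mem hs, hn, smul_eq_mul, Nat.add_sub_cancel] at h3
  have h4 : DD G W = ∑ w ∈ W.erase s, dg G W w + dg G W s := by
    unfold DD
    rw [Finset.sum_erase_add _ _ (Finset.mem_coe.mp hs)]
  have h5 : (n + 1) * n = n * n + n := by ring
  omega

/-- A vertex has at most three neighbours in a clique with four vertices. -/
theorem dg_kfour (hF : ¬ FF G) {K : Finset V} (hK : G.IsClique (K : Set V)) (h4 : K.card = 4)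
    (w : V) : dg G K w ≤ 3 := by
  by_cases hw : w ∈ K
  · have := dg_le (G := G) hw
    omega
  · by_contra hno
    apply hF
    left
    refine ⟨insert w K, ?_, by rw [Finset.card_insert_of_notMem hw, h4]⟩
    have h1 : (K.filter fun u => G.Adj w u) = K := by
      refine Finset.eq_of_subset_of_card_le (Finset.filter_subset _ _) ?_
      have : 3 < (K.filter fun u => G.Adj w u).card := not_le.mp hno
      omega
    rw [Finset.coe_insert]
    refine hK.insert fun u hu _ => ?_
    rw [Finset.mem_coe, ← h1, Finset.mem_filter] at hu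
    exact hu.2

theorem exists_missing {K : Finset V} (h4 : K.card = 4) {v : V} (h : dg G K v = 3) :
    ∃ a ∈ K, ¬ G.Adj v a ∧ ∀ k ∈ K, k ≠ a → G.Adj v k := by
  have h1 := Finset.card_filter_add_card_filter_not (s := K) (fun u => G.Adj v u)
  have h2 : (K.filter fun u => ¬ G.Adj v u).card = 1 := by
    unfold dg at h
    omega
  obtain ⟨a, ha⟩ := Finset.card_eq_one.mp h2
  have h3 : a ∈ K.filter fun u => ¬ G.Adj v u := by
    rw [ha]
    exact Finset.mem_singleton_self a
  rw [Finset.mem_filter] at h3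
  refine ⟨a, h3.1, h3.2, fun k hk hka => ?_⟩
  by_contra hno
  have : k ∈ K.filter fun u => ¬ G.Adj v u := Finset.mem_filter.mpr ⟨hk, hno⟩
  rw [ha, Finset.mem_singleton] at this
  exact hka this

/-- Vertices with three neighbours in a clique with four vertices are pairwise nonadjacent. -/
theorem indep (hF : ¬ FF G) {K : Finset V} (hK : G.IsClique (K : Set V)) (h4 : K.card = 4)
    {v w : V} (hv : v ∉ K) (hw : w ∉ K) (h3 : dg G K v = 3) (h3' : dg G K w = 3) :
    ¬ G.Adj v w := by
  intro hvw
  obtain ⟨a, ha, hva, hva'⟩ := exists_missing h4 h3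
  obtain ⟨b, hb, hwb, hwb'⟩ := exists_missing h4 h3'
  by_cases hab : a = b
  · subst hab
    apply hF
    left
    have hwe : w ∉ K.erase a := fun h => hw (Finset.mem_of_mem_erase h)
    have hve : v ∉ insert w (K.erase a) := by
      rw [Finset.mem_insert, not_or]
      exact ⟨hvw.ne, fun h => hv (Finset.mem_of_mem_erase h)⟩
    refine ⟨insert v (insert w (K.erase a)), ?_, ?_⟩
    · rw [Finset.coe_insert, Finset.coe_insert]
      have h1 : G.IsClique ((K.erase a : Finset V) : Set V) :=
        hK.subset (Finset.coe_subset.mpr (Finset.erase_subset _ _))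
      have h2 : G.IsClique (insert w ((K.erase a : Finset V) : Set V)) := by
        refine h1.insert fun u hu _ => ?_
        rw [Finset.mem_coe, Finset.mem_erase] at hu
        exact hwb' u hu.2 hu.1
      refine h2.insert fun u hu _ => ?_
      rcases hu with rfl | hu
      · exact hvw
      · rw [Finset.mem_coe, Finset.mem_erase] at hu
        exact hva' u hu.2 hu.1
    · rw [Finset.card_insert_of_notMem hve, Finset.card_insert_of_notMem hwe,
        Finset.card_erase_of_mem ha, h4]
  · have hbe : b ∈ K.erase a := Finset.mem_erase.mpr ⟨Ne.symm hab, hb⟩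
    have h2 : ((K.erase a).erase b).card = 2 := by
      rw [Finset.card_erase_of_mem hbe, Finset.card_erase_of_mem ha, h4]
    obtain ⟨c, d, hcd, he⟩ := Finset.card_eq_two.mp h2
    have hc : c ∈ (K.erase a).erase b := by
      rw [he]
      simp
    have hd : d ∈ (K.erase a).erase b := by
      rw [he]
      simp
    simp only [Finset.mem_erase] at hc hd
    obtain ⟨hcb, hca, hcK⟩ := hc
    obtain ⟨hdb, hda, hdK⟩ := hd
    apply hF
    right
    refine ⟨a, v, b, w, c, d, ?_⟩
    exact {
      ax := fun h => hv (h ▸ ha)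
      nax := fun h => hva h.symm
      hby := fun h => hw (h ▸ hb)
      nby := fun h => hwb h.symm
      ab := hK ha hb hab
      ay := (hwb' a ha hab).symm
      ac := hK ha hcK (Ne.symm hca)
      ad := hK ha hdK (Ne.symm hda)
      xb := hva' b hb (Ne.symm hab)
      xy := hvw
      xc := hva' c hcK hca
      xd := hva' d hdK hda
      bc := hK hb hcK (Ne.symm hcb)
      bd := hK hb hdK (Ne.symm hdb)
      yc := hwb' c hcK hcb
      yd := hwb' d hdK hdb
      cd := hK hcK hdK hcd }

/-- Six vertices with at least thirteen edges. -/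
theorem claim_six (hF : ¬ FF G) {W : Finset V} (h6 : W.card = 6) : DD G W ≤ 25 := by
  by_contra hno
  rw [not_le] at hno
  -- every vertex has at least four neighbours
  have h4 : ∀ v ∈ W, 4 ≤ dg G W v := by
    intro v hv
    by_contra h
    have h1 := DD_erase (G := G) hv
    have h2 : (W.erase v).card = 4 + 1 := by
      rw [Finset.card_erase_of_mem hv, h6]
    exact hF (Or.inl ⟨W.erase v, clique_of_DD h2 (by omega), h2⟩)
  have hU : ∀ v ∈ W, ∀ s ∈ W, ∀ t ∈ W, v ≠ s → v ≠ t → ¬ G.Adj v s → ¬ G.Adj v t → s = t := by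
    intro v hv s hs t ht hvs hvt h h'
    by_contra hst
    have := dg_le_three hv hs ht hvs hvt hst h h'
    have := h4 v hv
    omega
  by_cases hcl : G.IsClique (W : Set V)
  · obtain ⟨K, hKW, hK⟩ := Finset.exists_subset_card_eq (by omega : 5 ≤ W.card)
    exact hF (Or.inl ⟨K, hcl.subset (Finset.coe_subset.mpr hKW), hK⟩)
  obtain ⟨a, ha, x, hx, hax, nax⟩ : ∃ a ∈ W, ∃ x ∈ W, a ≠ x ∧ ¬ G.Adj a x := by
    by_contra h
    push Not at h
    exact hcl fun s hs t ht hst => h s hs t ht hst
  have c5 : (W.erase a).card = 4 + 1 := by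
    rw [Finset.card_erase_of_mem ha, h6]
  obtain ⟨b, hb', y, hy', hby, nby⟩ : ∃ b ∈ W.erase a, ∃ y ∈ W.erase a, b ≠ y ∧ ¬ G.Adj b y := by
    by_contra h
    push Not at h
    exact hF (Or.inl ⟨W.erase a, fun s hs t ht hst => h s hs t ht hst, c5⟩)
  rw [Finset.mem_erase] at hb' hy'
  obtain ⟨hba, hb⟩ := hb'
  obtain ⟨hya, hy⟩ := hy'
  have hbx : b ≠ x := by
    rintro rfl
    exact hya (hU b hb y hy a ha hby hax.symm nby fun h => nax h.symm)
  have hyx : y ≠ x := by
    rintro rfl
    exact hba (hU y hy b hb a ha hby.symm hax.symm (fun h => nby h.symm) fun h => nax h.symm)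
  have cc : ((((W.erase a).erase x).erase b).erase y).card = 2 := by
    rw [Finset.card_erase_of_mem, Finset.card_erase_of_mem, Finset.card_erase_of_mem,
      Finset.card_erase_of_mem ha, h6]
    · exact Finset.mem_erase.mpr ⟨hax.symm, hx⟩
    · exact Finset.mem_erase.mpr ⟨hbx, Finset.mem_erase.mpr ⟨hba, hb⟩⟩
    · exact Finset.mem_erase.mpr ⟨hby.symm, Finset.mem_erase.mpr ⟨hyx,
        Finset.mem_erase.mpr ⟨hya, hy⟩⟩⟩
  obtain ⟨c, d, hcd, he⟩ := Finset.card_eq_two.mp cc
  have hc : c ∈ (((W.erase a).erase x).erase b).erase y := by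
    rw [he]
    simp
  have hd : d ∈ (((W.erase a).erase x).erase b).erase y := by
    rw [he]
    simp
  simp only [Finset.mem_erase] at hc hd
  obtain ⟨hcy, hcb, hcx, hca, hcW⟩ := hc
  obtain ⟨hdy, hdb, hdx, hda, hdW⟩ := hd
  have hadj : ∀ v ∈ W, ∀ s ∈ W, ∀ t ∈ W, v ≠ s → ¬ G.Adj v s → v ≠ t → t ≠ s → G.Adj v t := by
    intro v hv s hs t ht hvs h hvt hts
    by_contra h'
    exact hts (hU v hv t ht s hs hvt hvs h' h)
  have acd : G.Adj c d := by
    by_contra ncd
    have h1 : ∀ w ∈ W, dg G W w ≤ 4 := by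
      intro w hw
      have hcases : w = a ∨ w = x ∨ w = b ∨ w = y ∨ w = c ∨ w = d := by
        by_contra hn
        simp only [not_or] at hn
        obtain ⟨n1, n2, n3, n4, n5, n6⟩ := hn
        have : w ∈ (((W.erase a).erase x).erase b).erase y := by
          simp only [Finset.mem_erase]
          exact ⟨n4, n3, n2, n1, hw⟩
        rw [he, Finset.mem_insert, Finset.mem_singleton] at this
        exact this.elim n5 n6
      rcases hcases with rfl | rfl | rfl | rfl | rfl | rfl
      · have := dg_le_two ha hx hax nax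
        omega
      · have := dg_le_two hx ha hax.symm fun h => nax h.symm
        omega
      · have := dg_le_two hb hy hby nby
        omega
      · have := dg_le_two hy hb hby.symm fun h => nby h.symm
        omega
      · have := dg_le_two hcW hdW hcd ncd
        omega
      · have := dg_le_two hdW hcW hcd.symm fun h => ncd h.symm
        omega
    have h2 := Finset.sum_le_card_nsmul W (fun w => dg G W w) 4 h1
    rw [h6, smul_eq_mul] at h2
    have h3 : DD G W ≤ 6 * 4 := h2
    omega
  apply hF
  right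
  refine ⟨a, x, b, y, c, d, ?_⟩
  exact {
    ax := hax
    nax := nax
    hby := hby
    nby := nby
    ab := hadj a ha x hx b hb hax nax (Ne.symm hba) hbx
    ay := hadj a ha x hx y hy hax nax (Ne.symm hya) hyx
    ac := hadj a ha x hx c hcW hax nax (Ne.symm hca) hcx
    ad := hadj a ha x hx d hdW hax nax (Ne.symm hda) hdx
    xb := hadj x hx a ha b hb hax.symm (fun h => nax h.symm) (Ne.symm hbx) hba
    xy := hadj x hx a ha y hy hax.symm (fun h => nax h.symm) (Ne.symm hyx) hya
    xc := hadj x hx a ha c hcW hax.symm (fun h => nax h.symm) (Ne.symm hcx) hca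
    xd := hadj x hx a ha d hdW hax.symm (fun h => nax h.symm) (Ne.symm hdx) hda
    bc := hadj b hb y hy c hcW hby nby (Ne.symm hcb) hcy
    bd := hadj b hb y hy d hdW hby nby (Ne.symm hdb) hdy
    yc := hadj y hy b hb c hcW hby.symm (fun h => nby h.symm) (Ne.symm hcy) hcb
    yd := hadj y hy b hb d hdW hby.symm (fun h => nby h.symm) (Ne.symm hdy) hdb
    cd := acd }

/-- Passing to a common neighbourhood. -/
theorem filter_card {W A : Finset V} (hA : A ⊆ W) {v : V} {e : ℕ} (h : W.card ≤ dg G W v + e) :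
    A.card ≤ (A.filter fun u => G.Adj v u).card + e := by
  have h1 := Finset.card_filter_add_card_filter_not (s := A) (fun u => G.Adj v u)
  have h2 := Finset.card_filter_add_card_filter_not (s := W) (fun u => G.Adj v u)
  have h3 : (A.filter fun u => ¬ G.Adj v u).card ≤ (W.filter fun u => ¬ G.Adj v u).card :=
    Finset.card_le_card (Finset.filter_subset_filter _ hA)
  unfold dg at h
  omega

theorem exists_kfour {W : Finset V} {e : ℕ} (h : ∀ v ∈ W, W.card ≤ dg G W v + e)
    (he : 3 * e < W.card) : ∃ K ⊆ W, G.IsClique (K : Set V) ∧ K.card = 4 := by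
  obtain ⟨v₁, h₁⟩ : W.Nonempty := Finset.card_pos.mp (by omega)
  have a1 := filter_card (Finset.Subset.refl W) (h v₁ h₁)
  obtain ⟨v₂, h₂⟩ : (W.filter fun u => G.Adj v₁ u).Nonempty := Finset.card_pos.mp (by omega)
  have s1 : (W.filter fun u => G.Adj v₁ u) ⊆ W := Finset.filter_subset _ _
  have a2 := filter_card s1 (h v₂ (s1 h₂))
  obtain ⟨v₃, h₃⟩ : ((W.filter fun u => G.Adj v₁ u).filter fun u => G.Adj v₂ u).Nonempty :=
    Finset.card_pos.mp (by omega)
  have s2 : ((W.filter fun u => G.Adj v₁ u).filter fun u => G.Adj v₂ u) ⊆ W :=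
    (Finset.filter_subset _ _).trans s1
  have a3 := filter_card s2 (h v₃ (s2 h₃))
  obtain ⟨v₄, h₄⟩ : (((W.filter fun u => G.Adj v₁ u).filter fun u => G.Adj v₂ u).filter
      fun u => G.Adj v₃ u).Nonempty := Finset.card_pos.mp (by omega)
  simp only [Finset.mem_filter] at h₂ h₃ h₄
  obtain ⟨w₂, e12⟩ := h₂
  obtain ⟨⟨w₃, e13⟩, e23⟩ := h₃
  obtain ⟨⟨⟨w₄, e14⟩, e24⟩, e34⟩ := h₄
  refine ⟨{v₁, v₂, v₃, v₄}, ?_, ?_, ?_⟩
  · intro t ht
    simp only [Finset.mem_insert, Finset.mem_singleton] at ht
    rcases ht with rfl | rfl | rfl | rfl <;> assumption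
  · intro s hs t ht hst
    simp only [Finset.coe_insert, Finset.coe_singleton, Set.mem_insert_iff,
      Set.mem_singleton_iff] at hs ht
    rcases hs with rfl | rfl | rfl | rfl <;> rcases ht with rfl | rfl | rfl | rfl <;>
      first | exact absurd rfl hst | assumption | (apply SimpleGraph.Adj.symm; assumption)
  · rw [Finset.card_insert_of_notMem, Finset.card_insert_of_notMem,
      Finset.card_insert_of_notMem, Finset.card_singleton]
    · rw [Finset.mem_singleton]
      exact e34.ne
    · simp only [Finset.mem_insert, Finset.mem_singleton, not_or]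
      exact ⟨e23.ne, e24.ne⟩
    · simp only [Finset.mem_insert, Finset.mem_singleton, not_or]
      exact ⟨e12.ne, e13.ne, e14.ne⟩

theorem T_succ (n : ℕ) : (n + 1) * (n + 1) / 3 + (n + 3) / 3 = n * n / 3 + (n + 1) := by
  obtain ⟨m, hm⟩ : ∃ m, n = 3 * m ∨ n = 3 * m + 1 ∨ n = 3 * m + 2 := ⟨n / 3, by omega⟩
  rcases hm with rfl | rfl | rfl
  · have e1 : (3 * m + 1) * (3 * m + 1) = 3 * (3 * (m * m) + 2 * m) + 1 := by ring
    have e2 : (3 * m) * (3 * m) = 3 * (3 * (m * m)) := by ring
    rw [e1, e2]
    omega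
  · have e1 : (3 * m + 1 + 1) * (3 * m + 1 + 1) = 3 * (3 * (m * m) + 4 * m + 1) + 1 := by ring
    have e2 : (3 * m + 1) * (3 * m + 1) = 3 * (3 * (m * m) + 2 * m) + 1 := by ring
    rw [e1, e2]
    omega
  · have e1 : (3 * m + 2 + 1) * (3 * m + 2 + 1) = 3 * (3 * (m * m) + 6 * m + 3) := by ring
    have e2 : (3 * m + 2) * (3 * m + 2) = 3 * (3 * (m * m) + 4 * m + 1) + 1 := by ring
    rw [e1, e2]
    omega

/-- The sum of the degrees of a clique with four vertices. -/
theorem sum_kfour (hF : ¬ FF G) {K W : Finset V} (hK : G.IsClique (K : Set V)) (h4 : K.card = 4)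
    (hKW : K ⊆ W) : ∑ k ∈ K, dg G W k ≤
      2 * W.card + 4 + (W.filter fun w => w ∉ K ∧ dg G K w = 3).card := by
  rw [sum_dg]
  have h1 : ∀ w ∈ W, dg G K w ≤
      2 + ((if w ∈ K then 1 else 0) + if w ∉ K ∧ dg G K w = 3 then 1 else 0) := by
    intro w _
    have := dg_kfour hF hK h4 w
    by_cases hw : w ∈ K
    · rw [if_pos hw]
      omega
    · by_cases h3 : dg G K w = 3
      · rw [if_pos (⟨hw, h3⟩ : w ∉ K ∧ dg G K w = 3)]
        omega
      · omega
  refine (Finset.sum_le_sum h1).trans ?_
  rw [Finset.sum_add_distrib, Finset.sum_add_distrib, ← Finset.card_filter,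
    ← Finset.card_filter, Finset.sum_const, smul_eq_mul]
  have h2 : (W.filter fun w => w ∈ K).card = 4 := by
    rw [Finset.filter_mem_eq_inter, Finset.inter_eq_right.mpr hKW, h4]
  rw [h2]
  omega

/-- Graphs with more edges than the Turán graph contain one of the two configurations. -/
theorem claim_A (hF : ¬ FF G) (n : ℕ) : ∀ {W : Finset V}, W.card = n + 6 →
    DD G W ≤ 2 * ((n + 6) * (n + 6) / 3) + 1 := by
  induction n with
  | zero =>
    intro W hW
    have := claim_six hF hW
    have e : (0 + 6) * (0 + 6) / 3 = 12 := by norm_num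
    rw [e]
    omega
  | succ n ih =>
    intro W hW
    by_contra hno
    rw [not_le] at hno
    have hT := T_succ (n + 6)
    have en : n + 1 + 6 = n + 6 + 1 := by omega
    rw [en] at hno
    by_cases hdeg : ∃ v ∈ W, dg G W v + (n + 6 + 3) / 3 ≤ n + 7
    · obtain ⟨v, hv, hdv⟩ := hdeg
      have h1 := DD_erase (G := G) hv
      have h2 : (W.erase v).card = n + 6 := by
        rw [Finset.card_erase_of_mem hv, hW]
        omega
      have h3 := ih h2
      omega
    · push Not at hdeg
      obtain ⟨K, hKW, hK, h4⟩ := exists_kfour (G := G) (W := W) (e := (n + 6 + 3) / 3 - 1)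
        (fun v hv => by
          have := hdeg v hv
          omega) (by omega)
      have h1 := sum_kfour hF hK h4 hKW
      have h2 : K.card • (n + 8 - (n + 6 + 3) / 3) ≤ ∑ k ∈ K, dg G W k := by
        refine Finset.card_nsmul_le_sum _ _ _ fun k hk => ?_
        have := hdeg k (hKW hk)
        omega
      rw [h4, smul_eq_mul] at h2
      rw [hW] at h1
      obtain ⟨v, hv⟩ : (W.filter fun w => w ∉ K ∧ dg G K w = 3).Nonempty := by
        apply Finset.card_pos.mp
        omega
      have hv' := hv
      rw [Finset.mem_filter] at hv'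
      obtain ⟨hvW, hvK, hv3⟩ := hv'
      obtain ⟨a, ha, hva, -⟩ := exists_missing h4 hv3
      have h5 : (W.filter fun u => G.Adj v u) ⊆
          W \ insert a (W.filter fun w => w ∉ K ∧ dg G K w = 3) := by
        intro u hu
        rw [Finset.mem_filter] at hu
        rw [Finset.mem_sdiff, Finset.mem_insert, Finset.mem_filter, not_or]
        refine ⟨hu.1, ?_, ?_⟩
        · rintro rfl
          exact hva hu.2
        · rintro ⟨-, h6, h7⟩
          exact indep hF hK h4 hvK h6 hv3 h7 hu.2
      have h6 := Finset.card_le_card h5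
      rw [Finset.card_sdiff_of_subset, Finset.card_insert_of_notMem, hW] at h6
      · have h7 := hdeg v hvW
        unfold dg at h7 h1 h2
        unfold dg at h6
        omega
      · intro h
        rw [Finset.mem_filter] at h
        exact h.2.1 ha
      · intro t ht
        rcases Finset.mem_insert.mp ht with rfl | ht
        · exact hKW ha
        · exact Finset.mem_of_mem_filter _ ht

end Q82.Mob
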