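import Mathlib

/-!
# Mobile general position sets: definitions

The definitions of general position sets, legal moves and the mobile general position number are
those of `Pool/Agent/Results/MP_73e407_co/TriangleForcesThree.lean` (helper102).
-/

set_option autoImplicit false

open SimpleGraph

namespace Q82.Mob

universe u

section Defs

variable {V : Type u} (G : SimpleGraph V)

/-- `S` is a general position set: no three vertices of `S` lie on a common shortest path. -/
def IsGP (S : Finset V) : Prop :=
  ∀ x ∈ S, ∀ y ∈ S, ∀ z ∈ S, x ≠ y → y ≠ z → x ≠ z →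
    ∀ (a b : V) (p : G.Walk a b), p.length = G.dist a b →
      ¬ (x ∈ p.support ∧ y ∈ p.support ∧ z ∈ p.support)

/-- One robot moves to an adjacent unoccupied vertex and the new set is in general position. -/
def LegalMove [DecidableEq V] (S T : Finset V) : Prop :=
  ∃ x ∈ S, ∃ y, y ∉ S ∧ G.Adj x y ∧ T = insert y (S.erase x) ∧ IsGP G T

/-- `S` is a mobile general position set: it is in general position and some finite sequence of
legal moves starting from `S` visits every vertex. -/
def IsMobileGP [DecidableEq V] (S : Finset V) : Prop :=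
  IsGP G S ∧ ∃ l : List (Finset V), (S :: l).IsChain (LegalMove G) ∧ ∀ v, ∃ T ∈ S :: l, v ∈ T

/-- The mobile general position number. -/
noncomputable def mob [DecidableEq V] : ℕ := sSup {k | ∃ S : Finset V, IsMobileGP G S ∧ S.card = k}

end Defs

section Tour

variable {α : Type*} {R : Finset α → Finset α → Prop} {S : Finset α}

theorem chain_append {l₁ l₂ : List (Finset α)} (h₁ : (S :: l₁).IsChain R)
    (e₁ : (S :: l₁).getLast (by simp) = S) (h₂ : (S :: l₂).IsChain R) :
    (S :: (l₁ ++ l₂)).IsChain R := by
  rw [← List.cons_append]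
  refine h₁.append (List.isChain_cons.mp h₂).2 ?_
  intro x hx y hy
  rw [List.getLast?_eq_getLast_of_ne_nil (by simp), Option.mem_some_iff, e₁] at hx
  subst hx
  exact (List.isChain_cons.mp h₂).1 y hy

/-- Closed loops from `S` through every vertex combine to one tour. -/
theorem exists_tour (L : List α) (h : ∀ v ∈ L, ∃ T, v ∈ T ∧ Relation.ReflTransGen R S T ∧
    Relation.ReflTransGen R T S) : ∃ l : List (Finset α), (S :: l).IsChain R ∧
    (S :: l).getLast (by simp) = S ∧ ∀ v ∈ L, ∃ T ∈ S :: l, v ∈ T := by
  induction L with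
  | nil => exact ⟨[], by simp, by simp, by simp⟩
  | cons v L ih =>
    obtain ⟨l, hl, el, hL⟩ := ih fun w hw => h w (List.mem_cons_of_mem _ hw)
    obtain ⟨T, hvT, hST, hTS⟩ := h v List.mem_cons_self
    obtain ⟨l₁, h₁, e₁⟩ := List.exists_isChain_cons_of_relationReflTransGen hST
    obtain ⟨l₂, h₂, e₂⟩ := List.exists_isChain_cons_of_relationReflTransGen hTS
    have hT : T ∈ S :: l₁ := by
      rw [← e₁]
      exact List.getLast_mem _
    have h₁₂ : (S :: (l₁ ++ l₂)).IsChain R := by
      rw [← List.cons_append]
      refine h₁.append (List.isChain_cons.mp h₂).2 ?_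
      intro x hx y hy
      rw [List.getLast?_eq_getLast_of_ne_nil (by simp), Option.mem_some_iff, e₁] at hx
      subst hx
      exact (List.isChain_cons.mp h₂).1 y hy
    have e₁₂ : (S :: (l₁ ++ l₂)).getLast (by simp) = S := by
      by_cases hl₂ : l₂ = []
      · subst hl₂
        simp only [List.append_nil]
        rw [e₁]
        simpa using e₂
      · rw [List.getLast_cons (by simp [hl₂]), List.getLast_append_of_ne_nil _ hl₂]
        rw [List.getLast_cons hl₂] at e₂
        exact e₂
    refine ⟨l ++ (l₁ ++ l₂), chain_append hl el h₁₂, ?_, ?_⟩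
    · by_cases hl₂ : l₁ ++ l₂ = []
      · simp only [hl₂, List.append_nil]
        exact el
      · rw [List.getLast_cons (fun h => hl₂ (List.append_eq_nil_iff.mp h).2),
          List.getLast_append_of_ne_nil _ hl₂]
        rw [List.getLast_cons hl₂] at e₁₂
        exact e₁₂
    · intro w hw
      rcases List.mem_cons.mp hw with rfl | hw
      · refine ⟨T, ?_, hvT⟩
        rcases List.mem_cons.mp hT with h | h
        · simp [h]
        · simp [h]
      · obtain ⟨T', hT', hw'⟩ := hL w hw
        refine ⟨T', ?_, hw'⟩
        rcases List.mem_cons.mp hT' with h | h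
        · simp [h]
        · simp [h]

end Tour

section GP

variable {V : Type u} {G : SimpleGraph V}

theorem dist_tri {x y z : V} (h1 : G.Reachable x y) (h2 : G.Reachable y z) :
    G.dist x z ≤ G.dist x y + G.dist y z := by
  obtain ⟨p, hp⟩ := h1.exists_walk_length_eq_dist
  obtain ⟨q, hq⟩ := h2.exists_walk_length_eq_dist
  have := dist_le (p.append q)
  rw [Walk.length_append] at this
  omega

theorem geod_add [DecidableEq V] {a b x : V} (p : G.Walk a b) (hp : p.length = G.dist a b)
    (hx : x ∈ p.support) :
    G.dist a x + G.dist x b = G.dist a b ∧ (p.takeUntil x hx).length = G.dist a x ∧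
      (p.dropUntil x hx).length = G.dist x b := by
  have h1 := dist_le (p.takeUntil x hx)
  have h2 := dist_le (p.dropUntil x hx)
  have h3 : (p.takeUntil x hx).length + (p.dropUntil x hx).length = p.length := by
    rw [← Walk.length_append, Walk.take_spec]
  have h4 := dist_tri (p.takeUntil x hx).reachable (p.dropUntil x hx).reachable
  omega

theorem geod_pair [DecidableEq V] {a b x y : V} (p : G.Walk a b) (hp : p.length = G.dist a b)
    (hx : x ∈ p.support) (hy : y ∈ p.support) :
    G.Reachable x y ∧ (G.dist a x + G.dist x y = G.dist a y ∨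
      G.dist a y + G.dist x y = G.dist a x) := by
  obtain ⟨h1, h2, h3⟩ := geod_add p hp hx
  obtain ⟨g1, g2, g3⟩ := geod_add p hp hy
  have hr : G.Reachable x y :=
    (p.takeUntil x hx).reachable.symm.trans (p.takeUntil y hy).reachable
  refine ⟨hr, ?_⟩
  have hm : y ∈ (p.takeUntil x hx).support ∨ y ∈ (p.dropUntil x hx).support := by
    rw [← Walk.mem_support_append_iff, Walk.take_spec]
    exact hy
  rcases hm with hm | hm
  · obtain ⟨k1, -, -⟩ := geod_add (p.takeUntil x hx) h2 hm
    rw [dist_comm (u := y) (v := x)] at k1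
    exact Or.inr k1
  · obtain ⟨k1, -, -⟩ := geod_add (p.dropUntil x hx) h3 hm
    left
    omega

/-- The distance criterion for general position. -/
theorem isGP_of_dist {S : Finset V}
    (h : ∀ x ∈ S, ∀ y ∈ S, ∀ z ∈ S, x ≠ y → y ≠ z → x ≠ z → G.Reachable x y →
      G.Reachable y z → G.dist x y + G.dist y z ≠ G.dist x z) : IsGP G S := by
  classical
  intro x hx y hy z hz hxy hyz hxz a b p hp hsup
  obtain ⟨s1, s2, s3⟩ := hsup
  obtain ⟨r1, e1⟩ := geod_pair p hp s1 s2
  obtain ⟨r2, e2⟩ := geod_pair p hp s2 s3
  obtain ⟨r3, e3⟩ := geod_pair p hp s1 s3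
  have k1 := h x hx y hy z hz hxy hyz hxz r1 r2
  have k2 := h y hy x hx z hz hxy.symm hxz hyz r1.symm r3
  have k3 := h x hx z hz y hy hxz hyz.symm hxy r3 r2.symm
  rw [dist_comm (u := y) (v := x)] at k2
  rw [dist_comm (u := z) (v := y)] at k3
  omega

theorem isGP_card_two {S : Finset V} (h : S.card ≤ 2) : IsGP G S := by
  classical
  intro x hx y hy z hz hxy hyz hxz
  exfalso
  have : ({x, y, z} : Finset V) ⊆ S := by
    intro w hw
    simp only [Finset.mem_insert, Finset.mem_singleton] at hw
    rcases hw with rfl | rfl | rfl <;> assumption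
  have h3 : ({x, y, z} : Finset V).card = 3 := by
    rw [Finset.card_eq_three]
    exact ⟨x, y, z, hxy, hxz, hyz, rfl⟩
  have := Finset.card_le_card this
  omega

/-- A set in general position contains no vertex on a shortest path between two others. -/
theorem IsGP.dist_ne {S : Finset V} (h : IsGP G S) {x y z : V} (hx : x ∈ S) (hy : y ∈ S)
    (hz : z ∈ S) (hxy : x ≠ y) (hyz : y ≠ z) (hxz : x ≠ z) (r1 : G.Reachable x y)
    (r2 : G.Reachable y z) : G.dist x y + G.dist y z ≠ G.dist x z := by
  intro he
  obtain ⟨p, hp⟩ := r1.exists_walk_length_eq_dist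
  obtain ⟨q, hq⟩ := r2.exists_walk_length_eq_dist
  refine h x hx y hy z hz hxy hyz hxz x z (p.append q) ?_ ?_
  · rw [Walk.length_append]
    omega
  · refine ⟨Walk.start_mem_support _, ?_, Walk.end_mem_support _⟩
    rw [Walk.mem_support_append_iff]
    exact Or.inl p.end_mem_support

/-- A move between two general position sets. -/
def Mv [DecidableEq V] (G : SimpleGraph V) (S T : Finset V) : Prop :=
  IsGP G S ∧ LegalMove G S T

theorem Mv.symm [DecidableEq V] {S T : Finset V} (h : Mv G S T) : Mv G T S := by
  obtain ⟨hS, x, hx, y, hy, hxy, rfl, hT⟩ := h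
  refine ⟨hT, y, by simp, x, ?_, hxy.symm, ?_, hS⟩
  · simp only [Finset.mem_insert, Finset.mem_erase, not_or, not_and]
    exact ⟨hxy.ne, fun h => absurd rfl h⟩
  · rw [Finset.erase_insert (by
      simp only [Finset.mem_erase, not_and]
      exact fun _ => hy), Finset.insert_erase hx]

/-- `T` can be reached from `S`. -/
def Cn [DecidableEq V] (G : SimpleGraph V) (S T : Finset V) : Prop :=
  Relation.ReflTransGen (Mv G) S T

theorem Cn.symm [DecidableEq V] {S T : Finset V} (h : Cn G S T) : Cn G T S := by
  induction h with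
  | refl => exact Relation.ReflTransGen.refl
  | tail _ h2 ih => exact Relation.ReflTransGen.head h2.symm ih

theorem Cn.trans [DecidableEq V] {S T U : Finset V} (h : Cn G S T) (h' : Cn G T U) : Cn G S U :=
  Relation.ReflTransGen.trans h h'

theorem isMobile_of_Cn [DecidableEq V] [Fintype V] {S : Finset V} (hS : IsGP G S)
    (h : ∀ v, ∃ T, v ∈ T ∧ Cn G S T) : IsMobileGP G S := by
  have mono : ∀ {A B : Finset V}, Cn G A B → Relation.ReflTransGen (LegalMove G) A B := by
    intro A B h
    induction h with
    | refl => exact Relation.ReflTransGen.refl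
    | tail _ h2 ih => exact ih.tail h2.2
  obtain ⟨l, hl, -, hv⟩ := exists_tour (R := LegalMove G) (S := S)
    (Finset.univ : Finset V).toList (fun v _ => by
      obtain ⟨T, hT, hST⟩ := h v
      exact ⟨T, hT, mono hST, mono hST.symm⟩)
  exact ⟨hS, l, hl, fun v => hv v (by simp)⟩

theorem card_le_mob [DecidableEq V] [Fintype V] {S : Finset V} (h : IsMobileGP G S) :
    S.card ≤ mob G := by
  apply le_csSup
  · refine ⟨Fintype.card V, ?_⟩
    rintro k ⟨T, -, rfl⟩
    exact T.card_le_univ
  · exact ⟨S, h, rfl⟩

end GP

end Q82.Mob
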