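import Pool.Agent.Q82.Mob.Triple

/-!
# Robots walking freely; graphs which are not connected
-/

set_option autoImplicit false

open SimpleGraph

namespace Q82.Mob

universe u

variable {V : Type u} [DecidableEq V] {G : SimpleGraph V}

/-- Two robots can visit all vertices reachable from them. -/
theorem two_token {s u₀ : V} {R : Finset V} (hsu : s ≠ u₀) (hru : G.Reachable s u₀)
    (hR : ∀ u v, u ≠ v → G.Reachable s u → G.Reachable s v →
      IsGP G (insert u (insert v R)) ∧ u ∉ R ∧ v ∉ R) {w : V} (hw : G.Reachable s w) :
    ∃ v, v ≠ w ∧ G.Reachable s v ∧ Cn G (insert s (insert u₀ R)) (insert w (insert v R)) := by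
  rw [reachable_iff_reflTransGen] at hw
  induction hw with
  | refl => exact ⟨u₀, hsu.symm, hru, Relation.ReflTransGen.refl⟩
  | tail hw' hadj ih =>
    rename_i w w'
    obtain ⟨v, hvw, hrv, hc⟩ := ih
    have hrw : G.Reachable s w := (reachable_iff_reflTransGen _ _).mpr hw'
    have hrw' : G.Reachable s w' := hrw.trans hadj.reachable
    by_cases h : v = w'
    · subst h
      refine ⟨w, hadj.ne, hrw, ?_⟩
      rwa [Finset.insert_comm w v R] at hc
    · refine ⟨v, h, hrv, hc.tail ⟨(hR w v hvw.symm hrw hrv).1, w, Finset.mem_insert_self _ _, w',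
        ?_, hadj, ?_, (hR w' v (Ne.symm h) hrw' hrv).1⟩⟩
      · rw [Finset.mem_insert, Finset.mem_insert, not_or, not_or]
        exact ⟨hadj.ne.symm, Ne.symm h, (hR w' v (Ne.symm h) hrw' hrv).2.1⟩
      · rw [Finset.erase_insert]
        rw [Finset.mem_insert, not_or]
        exact ⟨hvw.symm, (hR w v hvw.symm hrw hrv).2.1⟩

/-- One robot can visit all vertices reachable from it. -/
theorem one_token {t : V} {P : Finset V}
    (hP : ∀ w, G.Reachable t w → IsGP G (insert w P) ∧ w ∉ P) {w : V} (hw : G.Reachable t w) :
    Cn G (insert t P) (insert w P) := by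
  rw [reachable_iff_reflTransGen] at hw
  induction hw with
  | refl => exact Relation.ReflTransGen.refl
  | tail hw' hadj ih =>
    rename_i w w'
    have hrw : G.Reachable t w := (reachable_iff_reflTransGen _ _).mpr hw'
    have hrw' : G.Reachable t w' := hrw.trans hadj.reachable
    refine ih.tail ⟨(hP w hrw).1, w, Finset.mem_insert_self _ _, w', ?_, hadj, ?_,
      (hP w' hrw').1⟩
    · rw [Finset.mem_insert, not_or]
      exact ⟨hadj.ne.symm, (hP w' hrw').2⟩
    · rw [Finset.erase_insert (hP w hrw).2]

theorem gp_split {s u v t : V} (hu : G.Reachable s u) (hv : G.Reachable s v)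
    (ht : ¬ G.Reachable s t) : IsGP G {u, v, t} := by
  refine isGP_of_dist ?_
  intro x hx y hy z hz hxy hyz hxz r1 r2 _
  simp only [Finset.mem_insert, Finset.mem_singleton] at hx hy hz
  have h1 : ∀ w, G.Reachable s w → G.Reachable w t → False := fun w h h' => ht (h.trans h')
  rcases hx with rfl | rfl | rfl <;> rcases hy with rfl | rfl | rfl <;>
    rcases hz with rfl | rfl | rfl <;>
      first
      | exact absurd rfl ‹_›
      | exact h1 _ hu (r1.trans r2)
      | exact h1 _ hv (r1.trans r2)
      | exact h1 _ hu r1
      | exact h1 _ hv r1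
      | exact h1 _ hu r2
      | exact h1 _ hv r2
      | exact h1 _ hu r1.symm
      | exact h1 _ hv r1.symm
      | exact h1 _ hu r2.symm
      | exact h1 _ hv r2.symm

theorem split_mob [Fintype V] {s v t : V} (hsv : s ≠ v) (hv : G.Reachable s v)
    (ht : ¬ G.Reachable s t) (h : ∀ w, G.Reachable s w ∨ G.Reachable t w) : 3 ≤ mob G := by
  have hst : s ≠ t := by
    rintro rfl
    exact ht (Reachable.refl _)
  have hvt : v ≠ t := by
    rintro rfl
    exact ht hv
  refine three_le_mob (B := {s, v, t}) (gp_split (Reachable.refl _) hv ht)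
    (Finset.card_eq_three.mpr ⟨s, v, t, hsv, hst, hvt, rfl⟩) fun p => ?_
  rcases h p with hp | hp
  · obtain ⟨v', -, -, hc⟩ := two_token (R := {t}) hsv hv (fun a b _ ha hb =>
      ⟨gp_split ha hb ht, by
        rw [Finset.mem_singleton]
        rintro rfl
        exact ht ha, by
        rw [Finset.mem_singleton]
        rintro rfl
        exact ht hb⟩) hp
    exact ⟨_, Finset.mem_insert_self _ _, hc⟩
  · have hw : ∀ w, G.Reachable t w → ¬ G.Reachable s w := fun w h1 h2 => ht (h2.trans h1.symm)
    have e : ∀ t, ({s, v, t} : Finset V) = insert t {s, v} := by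
      intro t
      ext a
      simp only [Finset.mem_insert, Finset.mem_singleton]
      tauto
    have hc := one_token (t := t) (P := {s, v}) (fun w hw' => ⟨by
      have := gp_split (Reachable.refl s) hv (hw w hw')
      rwa [e] at this, by
      rw [Finset.mem_insert, Finset.mem_singleton, not_or]
      exact ⟨fun h => hw w hw' (h ▸ Reachable.refl _), fun h => hw w hw' (h ▸ hv)⟩⟩) hp
    rw [e]
    exact ⟨_, Finset.mem_insert_self _ _, hc⟩

theorem chain_all {α : Type*} {R : α → α → Prop} {P : α → Prop} (h : ∀ a b, P a → R a b → P b)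
    (l : List α) : ∀ {a : α}, P a → (a :: l).IsChain R → ∀ b ∈ a :: l, P b := by
  induction l with
  | nil =>
    intro a ha _ b hb
    rw [List.mem_singleton] at hb
    exact hb ▸ ha
  | cons c l ih =>
    intro a ha hc b hb
    rw [List.isChain_cons_cons] at hc
    rcases List.mem_cons.mp hb with rfl | hb
    · exact ha
    · exact ih (h _ _ ha hc.1) hc.2 b hb

theorem exists_mobile [Fintype V] {k : ℕ} (hk : 0 < k) (h : mob G = k) :
    ∃ S : Finset V, IsMobileGP G S ∧ S.card = k := by
  have hne : {k | ∃ S : Finset V, IsMobileGP G S ∧ S.card = k}.Nonempty := by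
    by_contra hno
    rw [Set.not_nonempty_iff_eq_empty] at hno
    unfold mob at h
    rw [hno] at h
    simp at h
    omega
  have hb : BddAbove {k | ∃ S : Finset V, IsMobileGP G S ∧ S.card = k} := by
    refine ⟨Fintype.card V, ?_⟩
    rintro k ⟨T, -, rfl⟩
    exact T.card_le_univ
  have := Nat.sSup_mem hne hb
  rw [← h]
  exact this

/-- Graphs of order at least four with mobile general position number two are connected. -/
theorem connected_of_mob [Fintype V] (hn : 4 ≤ Fintype.card V) (h : mob G = 2) :
    G.Connected := by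
  obtain ⟨S, ⟨hS, l, hl, hv⟩, hc⟩ := exists_mobile (by norm_num) h
  obtain ⟨s, t, hst, rfl⟩ := Finset.card_eq_two.mp hc
  have key : ∀ w, G.Reachable s w ∨ G.Reachable t w := by
    intro w
    obtain ⟨T, hT, hwT⟩ := hv w
    refine chain_all (P := fun T => ∀ w ∈ T, G.Reachable s w ∨ G.Reachable t w) ?_ l ?_ hl T hT
      w hwT
    · rintro A B hA ⟨x, hx, y, hy, hxy, rfl, -⟩ w hw
      rcases Finset.mem_insert.mp hw with rfl | hw
      · rcases hA x hx with h1 | h1
        · exact Or.inl (h1.trans hxy.reachable)
        · exact Or.inr (h1.trans hxy.reachable)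
      · exact hA w (Finset.mem_of_mem_erase hw)
    · intro w hw
      rw [Finset.mem_insert, Finset.mem_singleton] at hw
      rcases hw with rfl | rfl
      · exact Or.inl (Reachable.refl _)
      · exact Or.inr (Reachable.refl _)
  rw [connected_iff_exists_forall_reachable]
  by_cases hr : G.Reachable s t
  · refine ⟨s, fun w => ?_⟩
    rcases key w with h1 | h1
    · exact h1
    · exact hr.trans h1
  · exfalso
    obtain ⟨v, hv⟩ : ∃ v, v ∉ ({s, t} : Finset V) := by
      by_contra hno
      push Not at hno
      have : (Finset.univ : Finset V) ⊆ {s, t} := fun v _ => hno v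
      have := Finset.card_le_card this
      rw [Finset.card_univ, hc] at this
      omega
    rw [Finset.mem_insert, Finset.mem_singleton, not_or] at hv
    rcases key v with h1 | h1
    · have := split_mob (Ne.symm hv.1) h1 hr key
      omega
    · have := split_mob (Ne.symm hv.2) h1 (fun h => hr h.symm) fun w => (key w).symm
      omega

end Q82.Mob
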