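import Pool.Agent.Q82.Mob.Triple

/-!
# Graphs with five pairwise adjacent vertices
-/

set_option autoImplicit false

open SimpleGraph

namespace Q82.Mob

universe u

variable {V : Type u} [DecidableEq V] {G : SimpleGraph V}

theorem Lv.unique {Q : Finset V} {p : V} {k l : ℕ} (h : Lv G Q p k) (h' : Lv G Q p l) : k = l := by
  obtain ⟨h1, u, hu, h2⟩ := h
  obtain ⟨g1, w, hw, g2⟩ := h'
  have := h1 w hw
  have := g1 u hu
  omega

theorem dist_le_clique (hG : G.Connected) {K : Finset V} (hK : G.IsClique (K : Set V))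
    {q c w : V} (hw : w ∈ K) (hc : c ∈ K) : G.dist q c ≤ G.dist q w + 1 := by
  by_cases h : w = c
  · subst h
    omega
  · have := hG.dist_triangle (u := q) (v := w) (w := c)
    rw [dist_one (hK hw hc h)] at this
    exact this

theorem Lv.clique (hG : G.Connected) {K : Finset V} (hK : G.IsClique (K : Set V))
    {p c : V} {k : ℕ} (h : Lv G K p k) (hc : c ∈ K) : G.dist p c = k ∨ G.dist p c = k + 1 := by
  obtain ⟨h1, w, hw, h2⟩ := h
  have := h1 c hc
  have := dist_le_clique hG hK (q := p) hw hc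
  omega

/-- Two clique vertices which are not nearest to `p` form a reachable triple with `p`. -/
theorem claim_one (hG : G.Connected) {K B : Finset V} (hK : G.IsClique (K : Set V)) (hB : B ⊆ K)
    (hc : B.card = 3) (k : ℕ) : ∀ {p u v : V}, Lv G K p k → u ∈ K → v ∈ K → u ≠ v →
    G.dist p u = k + 1 → G.dist p v = k + 1 → Rch G B p u v := by
  induction k with
  | zero =>
    intro p u v hp hu hv huv h1 h2
    have hpu : p ≠ u := by
      rintro rfl
      rw [dist_self] at h1
      omega
    have hpv : p ≠ v := by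
      rintro rfl
      rw [dist_self] at h2
      omega
    exact rch_clique hK hB hc (hp.zero hG) hu hv hpu hpv huv
  | succ k ih =>
    intro p u v hp hu hv huv h1 h2
    obtain ⟨w, hw, hw'⟩ := hp.2
    obtain ⟨q, hq, hq', -, -⟩ := hp.pred hG hw hw'
    have a1 := dist_adj hG hq u
    have a2 := dist_adj hG hq v
    have a3 := hq'.clique hG hK hu
    have a4 := hq'.clique hG hK hv
    refine (ih hq' hu hv huv (by omega) (by omega)).step hq.symm (hp.ne hu) (hp.ne hv) ?_
    have a5 := dist_one (hK hu hv huv)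
    refine ⟨?_, ?_, ?_⟩ <;> omega

/-- Two nearest clique vertices form a reachable triple with `p`. -/
def BOne (G : SimpleGraph V) (K B : Finset V) (k : ℕ) (p : V) : Prop :=
  ∃ u ∈ K, ∃ v ∈ K, u ≠ v ∧ G.dist p u = k ∧ G.dist p v = k ∧ Rch G B p u v

/-- A reachable triple consisting of `p`, a nearest clique vertex and a vertex on the way. -/
def BTwo (G : SimpleGraph V) (K B : Finset V) (k : ℕ) (p : V) : Prop :=
  ∃ r v j, Lv G K r (j + 1) ∧ j + 3 ≤ k ∧ v ∈ K ∧ G.dist p v = k ∧ G.dist r v = j + 2 ∧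
    G.dist p r + (j + 1) = k ∧ Rch G B p r v

theorem BOne.succ (hG : G.Connected) {K B : Finset V} (hK : G.IsClique (K : Set V)) {k : ℕ}
    {p q : V} (hp : Lv G K p (k + 1)) (hq : Lv G K q k) (hpq : G.Adj p q) (h : BOne G K B k q) :
    BOne G K B (k + 1) p := by
  obtain ⟨u, hu, v, hv, huv, h1, h2, h3⟩ := h
  have a1 := hp.pred' hG hq hpq hu h1
  have a2 := hp.pred' hG hq hpq hv h2
  refine ⟨u, hu, v, hv, huv, a1, a2, h3.step hpq.symm (hp.ne hu) (hp.ne hv) ?_⟩
  have a5 := dist_one (hK hu hv huv)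
  refine ⟨?_, ?_, ?_⟩ <;> omega

theorem BTwo.succ (hG : G.Connected) {K B : Finset V} {k : ℕ}
    {p q : V} (hp : Lv G K p (k + 1)) (hq : Lv G K q k) (hpq : G.Adj p q) (h : BTwo G K B k q) :
    BTwo G K B (k + 1) p := by
  obtain ⟨r, v, j, hr, hj, hv, h1, h2, h3, h4⟩ := h
  have a1 := hp.pred' hG hq hpq hv h1
  have a2 := dist_adj hG hpq r
  obtain ⟨w, hw, hw'⟩ := hr.2
  have a3 := hp.1 w hw
  have a4 := hG.dist_triangle (u := p) (v := r) (w := w)
  have hpr : p ≠ r := by
    rintro rfl
    have := hp.unique hr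
    omega
  refine ⟨r, v, j, hr, by omega, hv, a1, h2, by omega,
    h4.step hpq.symm hpr (hp.ne hv) ⟨?_, ?_, ?_⟩⟩ <;> omega

theorem level_one (hG : G.Connected) {K B : Finset V} (hK : G.IsClique (K : Set V)) (hB : B ⊆ K)
    (hc : B.card = 3) {p : V} (hp : Lv G K p 1)
    (h : 3 ≤ (K.filter fun u => G.dist p u = 1).card) : BOne G K B 1 p := by
  obtain ⟨u, v, w, hu, hv, hw, huv, huw, hvw⟩ := Finset.two_lt_card_iff.mp h
  rw [Finset.mem_filter] at hu hv hw
  refine ⟨u, hu.1, v, hv.1, huv, hu.2, hv.2, ?_⟩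
  have h1 : Rch G B w u v := rch_clique hK hB hc hw.1 hu.1 hv.1 huw.symm hvw.symm huv
  have h2 : G.Adj w p := (dist_eq_one_iff_adj.mp hw.2).symm
  refine h1.step h2 (hp.ne hu.1) (hp.ne hv.1) ?_
  exact gpc_clique (dist_eq_one_iff_adj.mp hu.2) (dist_eq_one_iff_adj.mp hv.2) (hK hu.1 hv.1 huv)

/-- Moving a clique vertex along a shortest path away from the clique. -/
theorem move_out (hG : G.Connected) {K B : Finset V} (hK : G.IsClique (K : Set V))
    {q x c : V} {j : ℕ} (hq : Lv G K q (j + 2)) (hx : x ∈ K) (hc : c ∈ K)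
    (hqx : G.dist q x = j + 3) (hqc : G.dist q c = j + 3) (h0 : Rch G B q x c) (i : ℕ) :
    ∀ {s : V}, Lv G K s i → G.dist s x = i → G.dist s c = i + 1 → i ≤ j + 1 →
      Rch G B q s c := by
  induction i with
  | zero =>
    intro s hs h1 h2 h3
    rw [hG.dist_eq_zero_iff] at h1
    exact h1 ▸ h0
  | succ i ih =>
    intro s hs h1 h2 h3
    obtain ⟨s', hs', hl, hd, -⟩ := hs.pred hG hx h1
    have a1 := dist_adj hG hs' c
    have a2 := hl.clique hG hK hc
    have a3 := ih hl hd (by omega) (by omega)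
    have hqs : q ≠ s := by
      rintro rfl
      have := hq.unique hs
      omega
    refine a3.step2 hs'.symm hqs (hs.ne hc).symm ?_
    have b1 := hG.dist_triangle (u := q) (v := s) (w := x)
    obtain ⟨w, hw, hw'⟩ := hq.2
    have b2 := hG.dist_triangle (u := q) (v := w) (w := s)
    have b3 : G.dist w s = G.dist s w := dist_comm
    have b4 := hs.clique hG hK hw
    refine ⟨?_, ?_, ?_⟩ <;> omega

theorem claim_two (hG : G.Connected) {K B : Finset V} (hK : G.IsClique (K : Set V)) (hB : B ⊆ K)
    (hc : B.card = 3) (h5 : K.card = 5) (k : ℕ) : ∀ {p : V}, Lv G K p (k + 1) →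
    4 ≤ (K.filter fun u => G.dist p u = k + 1).card →
    BOne G K B (k + 1) p ∨ BTwo G K B (k + 1) p := by
  induction k with
  | zero =>
    intro p hp h4
    exact Or.inl (level_one hG hK hB hc hp (by
      simp only [Nat.zero_add] at h4
      omega))
  | succ k ih =>
    intro p hp h4
    by_contra hno
    rw [not_or] at hno
    obtain ⟨hn1, hn2⟩ := hno
    have hq1 : ∀ q, G.Adj p q → Lv G K q (k + 1) → ¬ BOne G K B (k + 1) q :=
      fun q h1 h2 h3 => hn1 (h3.succ hG hK hp h2 h1)
    have hq2 : ∀ q, G.Adj p q → Lv G K q (k + 1) → ¬ BTwo G K B (k + 1) q :=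
      fun q h1 h2 h3 => hn2 (h3.succ hG hp h2 h1)
    have hq3 : ∀ q, G.Adj p q → Lv G K q (k + 1) →
        (K.filter fun u => G.dist q u = k + 1).card ≤ 3 := by
      intro q h1 h2
      by_contra h3
      rcases ih h2 (by omega) with h | h
      · exact hq1 q h1 h2 h
      · exact hq2 q h1 h2 h
    -- two elements of `E p` missing in `E q` give `BOne`
    have hq4 : ∀ q, G.Adj p q → Lv G K q (k + 1) → ∀ u ∈ K, ∀ v ∈ K, G.dist p u = k + 2 →
        G.dist p v = k + 2 → G.dist q u ≠ k + 1 → G.dist q v ≠ k + 1 → u = v := by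
      intro q h1 h2 u hu v hv hpu hpv hqu hqv
      by_contra huv
      have a3 := h2.clique hG hK hu
      have a4 := h2.clique hG hK hv
      refine hn1 ⟨u, hu, v, hv, huv, hpu, hpv, ?_⟩
      refine (claim_one hG hK hB hc (k + 1) h2 hu hv huv (by omega) (by omega)).step h1.symm
        (hp.ne hu) (hp.ne hv) ?_
      have a5 := dist_one (hK hu hv huv)
      refine ⟨?_, ?_, ?_⟩ <;> omega
    have hsub : ∀ q, G.Adj p q → Lv G K q (k + 1) →
        (K.filter fun u => G.dist q u = k + 1) ⊆ (K.filter fun u => G.dist p u = k + 2) := by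
      intro q h1 h2 u hu
      rw [Finset.mem_filter] at hu ⊢
      exact ⟨hu.1, hp.pred' hG h2 h1 hu.1 hu.2⟩
    have hq5 : ∀ q, G.Adj p q → Lv G K q (k + 1) →
        (K.filter fun u => G.dist p u = k + 2).card ≤
          (K.filter fun u => G.dist q u = k + 1).card + 1 := by
      intro q h1 h2
      have h3 : ((K.filter fun u => G.dist p u = k + 2) \
          (K.filter fun u => G.dist q u = k + 1)).card ≤ 1 := by
        rw [Finset.card_le_one]
        intro u hu v hv
        simp only [Finset.mem_sdiff, Finset.mem_filter, not_and] at hu hv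
        exact hq4 q h1 h2 u hu.1.1 v hv.1.1 hu.1.2 hv.1.2 (hu.2 hu.1.1) (hv.2 hv.1.1)
      have h4 := Finset.card_sdiff_add_card_inter (K.filter fun u => G.dist p u = k + 2)
        (K.filter fun u => G.dist q u = k + 1)
      have h5 := Finset.card_le_card (Finset.inter_subset_right
        (s₁ := (K.filter fun u => G.dist p u = k + 2))
        (s₂ := (K.filter fun u => G.dist q u = k + 1)))
      omega
    obtain ⟨w, hw, hw'⟩ := hp.2
    obtain ⟨q, hq, hlq, hqw, -⟩ := hp.pred hG hw hw'
    have e1 := hq3 q hq hlq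
    have e2 := hq5 q hq hlq
    have h4' : 4 ≤ (K.filter fun u => G.dist p u = k + 2).card := h4
    -- the level of `q` is at least two
    obtain ⟨j, rfl⟩ : ∃ j, k = j + 1 := by
      rcases k with _ | j
      · exact absurd (level_one hG hK hB hc hlq (by
          simp only [Nat.zero_add] at e1 e2 h4' ⊢
          omega)) (hq1 q hq hlq)
      · exact ⟨j, rfl⟩
    obtain ⟨x, hx, hpx, hqx⟩ : ∃ x ∈ K, G.dist p x = j + 1 + 2 ∧ G.dist q x ≠ j + 1 + 1 := by
      by_contra hno
      push Not at hno
      have : (K.filter fun u => G.dist p u = j + 1 + 2) ⊆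
          (K.filter fun u => G.dist q u = j + 1 + 1) := by
        intro u hu
        rw [Finset.mem_filter] at hu ⊢
        exact ⟨hu.1, hno u hu.1 hu.2⟩
      have := Finset.card_le_card this
      omega
    obtain ⟨c, hcK, hpc⟩ : ∃ c ∈ K, G.dist p c ≠ j + 1 + 2 := by
      by_contra hno
      push Not at hno
      have : K ⊆ (K.filter fun u => G.dist p u = j + 1 + 2) := by
        intro u hu
        rw [Finset.mem_filter]
        exact ⟨hu, hno u hu⟩
      have := Finset.card_le_card this
      omega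
    obtain ⟨q', hq', hlq', hqx', -⟩ := hp.pred hG hx hpx
    have f1 := hq3 q' hq' hlq'
    have f2 := hq5 q' hq' hlq'
    obtain ⟨v, hv, hpv, hqv'⟩ : ∃ v ∈ K, G.dist p v = j + 1 + 2 ∧ G.dist q' v ≠ j + 1 + 1 := by
      by_contra hno
      push Not at hno
      have : (K.filter fun u => G.dist p u = j + 1 + 2) ⊆
          (K.filter fun u => G.dist q' u = j + 1 + 1) := by
        intro u hu
        rw [Finset.mem_filter] at hu ⊢
        exact ⟨hu.1, hno u hu.1 hu.2⟩
      have := Finset.card_le_card this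
      omega
    have hxv : x ≠ v := by
      rintro rfl
      exact hqv' hqx'
    have hqv : G.dist q v = j + 2 := by
      by_contra h
      exact hxv (hq4 q hq hlq x hx v hv hpx hpv hqx h)
    obtain ⟨r, hr, hlr, hrx, hrE⟩ := hlq'.pred hG hx hqx'
    -- distances
    have d1 := hlq.clique hG hK hx
    have hqc : G.dist q c ≠ j + 1 + 1 := fun h => hpc (hp.pred' hG hlq hq hcK h)
    have d2 := hlq.clique hG hK hcK
    have hrc : G.dist r c ≠ j + 1 := by
      intro h
      exact hpc (hp.pred' hG hlq' hq' hcK (hrE c hcK h))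
    have d3 := hlr.clique hG hK hcK
    have hrv : G.dist r v ≠ j + 1 := fun h => hqv' (hrE v hv h)
    have d4 := hlr.clique hG hK hv
    have hxc : x ≠ c := by
      rintro rfl
      exact hpc hpx
    have hcv : c ≠ v := by
      rintro rfl
      exact hpc hpv
    have g1 : Rch G B q x c :=
      claim_one hG hK hB hc (j + 2) hlq hx hcK hxc (by omega) (by omega)
    have g2 : Rch G B q r c :=
      move_out hG hK hlq hx hcK (by omega) (by omega) g1 (j + 1) hlr hrx (by omega) le_rfl
    have b1 := dist_adj' hG hq r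
    have b2 := dist_adj hG hq' r
    have b3 := dist_one hr
    have hqr : q ≠ r := by
      rintro rfl
      have := hlq.unique hlr
      omega
    have hpr : p ≠ r := by
      rintro rfl
      have := hp.unique hlr
      omega
    have b4 := dist_pos' hG hqr
    have g3 : Rch G B q r v := by
      refine g2.step3 (hK hcK hv hcv) (hlq.ne hv) (hlr.ne hv) ⟨?_, ?_, ?_⟩ <;> omega
    obtain ⟨w', hw1, hw2⟩ := hlr.2
    have b5 := hG.dist_triangle (u := p) (v := r) (w := w')
    have b6 := hp.1 w' hw1
    have g4 : Rch G B p r v := by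
      refine g3.step hq.symm hpr (hp.ne hv) ⟨?_, ?_, ?_⟩ <;> omega
    exact hn2 ⟨r, v, j, hlr, by omega, hv, by omega, by omega, by omega, g4⟩

/-- Every vertex can be reached when there are five pairwise adjacent vertices. -/
theorem kfive_reach (hG : G.Connected) {K B : Finset V} (hK : G.IsClique (K : Set V))
    (hB : B ⊆ K) (hc : B.card = 3) (h5 : K.card = 5) (p : V) : ∃ u v, Rch G B p u v := by
  obtain ⟨k, hk⟩ := exists_Lv (G := G) (Finset.card_pos.mp (by omega : 0 < K.card)) p
  rcases k with _ | k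
  · have hp := hk.zero hG
    have h4 : 1 < (K.erase p).card := by
      rw [Finset.card_erase_of_mem hp]
      omega
    obtain ⟨u, hu, v, hv, huv⟩ := Finset.one_lt_card.mp h4
    rw [Finset.mem_erase] at hu hv
    exact ⟨u, v, rch_clique hK hB hc hp hu.2 hv.2 hu.1.symm hv.1.symm huv⟩
  · by_cases h4 : 4 ≤ (K.filter fun u => G.dist p u = k + 1).card
    · rcases claim_two hG hK hB hc h5 k hk h4 with ⟨u, -, v, -, -, -, -, h⟩ |
        ⟨r, v, -, -, -, -, -, -, -, h⟩
      · exact ⟨u, v, h⟩
      · exact ⟨r, v, h⟩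
    · have h1 := Finset.card_filter_add_card_filter_not (s := K) (fun u => G.dist p u = k + 1)
      have h2 : 1 < (K.filter fun u => ¬ G.dist p u = k + 1).card := by omega
      obtain ⟨u, hu, v, hv, huv⟩ := Finset.one_lt_card.mp h2
      rw [Finset.mem_filter] at hu hv
      have a1 := hk.clique hG hK hu.1
      have a2 := hk.clique hG hK hv.1
      exact ⟨u, v, claim_one hG hK hB hc (k + 1) hk hu.1 hv.1 huv (by omega) (by omega)⟩

theorem kfive_mob [Fintype V] (hG : G.Connected) {K : Finset V} (hK : G.IsClique (K : Set V))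
    (h5 : K.card = 5) : 3 ≤ mob G := by
  obtain ⟨B, hB, hc⟩ := Finset.exists_subset_card_eq (by omega : 3 ≤ K.card)
  refine three_le_mob (isGP_clique hK hB) hc fun p => ?_
  obtain ⟨u, v, h⟩ := kfive_reach hG hK hB hc h5 p
  exact ⟨_, by simp, h.2.2.2.2⟩

end Q82.Mob
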