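import Pool.Agent.Q82.Mob.Count
import Pool.Agent.Q82.Mob.KFive

/-!
# Graphs with four pairwise adjacent vertices and many edges
-/

set_option autoImplicit false

open SimpleGraph

namespace Q82.Mob

universe u

variable {V : Type u} [DecidableEq V] {G : SimpleGraph V}

theorem four_zero_aux (hG : G.Connected) {K B : Finset V} (hK : G.IsClique (K : Set V))
    (hB : B ⊆ K) (hc : B.card = 3) {v s u w : V} (hv : v ∉ K) (hs : s ∈ K) (hu : u ∈ K)
    (hw : w ∈ K) (hsu : s ≠ u) (hsw : s ≠ w) (huw : u ≠ w) (hvs : G.Adj v s)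
    (h : G.Adj v u ↔ G.Adj v w) : Rch G B v u w := by
  have hne : ∀ t ∈ K, v ≠ t := fun t ht h => hv (h ▸ ht)
  refine (rch_clique hK hB hc hs hu hw hsu hsw huw).step hvs.symm (hne u hu) (hne w hw) ?_
  by_cases hvu : G.Adj v u
  · exact gpc_clique hvu (h.mp hvu) (hK hu hw huw)
  · have hvw : ¬ G.Adj v w := fun h' => hvu (h.mpr h')
    have e1 := dist_two hG hvs (hK hs hu hsu) (hne u hu) hvu
    have e2 := dist_two hG hvs (hK hs hw hsw) (hne w hw) hvw
    have e3 := dist_one (hK hu hw huw)
    refine ⟨?_, ?_, ?_⟩ <;> omega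

/-- Neighbours of a clique with four vertices. -/
theorem four_zero (hG : G.Connected) {K B : Finset V} (hK : G.IsClique (K : Set V))
    (h4 : K.card = 4) (hB : B ⊆ K) (hc : B.card = 3) {v s : V} (hv : v ∉ K) (hs : s ∈ K)
    (hvs : G.Adj v s) : ∃ u w, Rch G B v u w := by
  have h3 : (K.erase s).card = 3 := by rw [Finset.card_erase_of_mem hs, h4]
  obtain ⟨x, y, z, hxy, hxz, hyz, he⟩ := Finset.card_eq_three.mp h3
  have hx : x ∈ K.erase s := by
    rw [he]
    simp
  have hy : y ∈ K.erase s := by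
    rw [he]
    simp
  have hz : z ∈ K.erase s := by
    rw [he]
    simp
  rw [Finset.mem_erase] at hx hy hz
  by_cases h1 : G.Adj v x ↔ G.Adj v y
  · exact ⟨x, y, four_zero_aux hG hK hB hc hv hs hx.2 hy.2 hx.1.symm hy.1.symm hxy hvs h1⟩
  · by_cases h2 : G.Adj v x ↔ G.Adj v z
    · exact ⟨x, z, four_zero_aux hG hK hB hc hv hs hx.2 hz.2 hx.1.symm hz.1.symm hxz hvs h2⟩
    · exact ⟨y, z, four_zero_aux hG hK hB hc hv hs hy.2 hz.2 hy.1.symm hz.1.symm hyz hvs
        (by tauto)⟩

/-- Vertices adjacent to a vertex with three neighbours in the clique. -/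
theorem four_one (hG : G.Connected) {K B : Finset V} (hK : G.IsClique (K : Set V))
    (hB : B ⊆ K) (hc : B.card = 3) {z v b c d : V} (hz : z ∉ K) (hv : v ∉ K) (hzK : ∀ k ∈ K,
    ¬ G.Adj z k) (hzv : G.Adj z v) (hb : b ∈ K) (hcK : c ∈ K) (hd : d ∈ K) (hbc : b ≠ c)
    (hbd : b ≠ d) (hcd : c ≠ d) (hvb : G.Adj v b) (hvc : G.Adj v c) (hvd : G.Adj v d) :
    Rch G B z c d := by
  have hne : ∀ t ∈ K, v ≠ t := fun t ht h => hv (h ▸ ht)
  have hnz : ∀ t ∈ K, z ≠ t := fun t ht h => hz (h ▸ ht)
  have h1 : Rch G B v c d := (rch_clique hK hB hc hb hcK hd hbc hbd hcd).step hvb.symm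
    (hne c hcK) (hne d hd) (gpc_clique hvc hvd (hK hcK hd hcd))
  have e1 := dist_two hG hzv hvc (hnz c hcK) (hzK c hcK)
  have e2 := dist_two hG hzv hvd (hnz d hd) (hzK d hd)
  have e3 := dist_one (hK hcK hd hcd)
  exact h1.step hzv.symm (hnz c hcK) (hnz d hd) (by refine ⟨?_, ?_, ?_⟩ <;> omega)

theorem claim_B [Fintype V] [DecidableRel G.Adj] (hG : G.Connected) (hF : ¬ FF G)
    {K B : Finset V} (hK : G.IsClique (K : Set V)) (h4 : K.card = 4) (hB : B ⊆ K)
    (hc : B.card = 3)
    (hD : 2 * (Fintype.card V * Fintype.card V / 3) ≤ DD G Finset.univ) (z : V) :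
    ∃ u w, Rch G B z u w := by
  by_contra hno
  have hzK : z ∉ K := by
    intro hz
    have h3 : 1 < (K.erase z).card := by
      rw [Finset.card_erase_of_mem hz, h4]
      omega
    obtain ⟨u, hu, v, hv, huv⟩ := Finset.one_lt_card.mp h3
    rw [Finset.mem_erase] at hu hv
    exact hno ⟨u, v, rch_clique hK hB hc hz hu.2 hv.2 hu.1.symm hv.1.symm huv⟩
  have hzA : ∀ k ∈ K, ¬ G.Adj z k := fun k hk h => hno (four_zero hG hK h4 hB hc hzK hk h)
  have hzN : ∀ v, G.Adj z v → dg G K v ≠ 3 := by
    intro v hzv h3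
    have hvK : v ∉ K := fun h => hzA v h hzv
    obtain ⟨b, c, d, hb, hc', hd, hbc, hbd, hcd⟩ := Finset.two_lt_card_iff.mp
      (show 2 < (K.filter fun u => G.Adj v u).card by
        unfold dg at h3
        omega)
    rw [Finset.mem_filter] at hb hc' hd
    exact hno ⟨c, d, four_one hG hK hB hc hzK hvK hzA hzv hb.1 hc'.1 hd.1 hbc hbd hcd hb.2
      hc'.2 hd.2⟩
  have hcard : 5 ≤ Fintype.card V := by
    have h1 : (insert z K).card = 5 := by
      rw [Finset.card_insert_of_notMem hzK, h4]
    rw [← h1]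
    exact Finset.card_le_univ _
  have huniv : (Finset.univ : Finset V).card = Fintype.card V := Finset.card_univ
  have hNz : (Finset.univ.filter fun u => G.Adj z u) ⊆ Finset.univ \ (insert z K ∪
      Finset.univ.filter fun w => w ∉ K ∧ dg G K w = 3) := by
    intro u hu
    rw [Finset.mem_filter] at hu
    simp only [Finset.mem_sdiff, Finset.mem_univ, true_and, Finset.mem_union,
      Finset.mem_insert, Finset.mem_filter, not_or, not_and]
    refine ⟨⟨hu.2.ne.symm, fun h => hzA u h hu.2⟩, fun _ => hzN u hu.2⟩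
  have hz3 : dg G K z = 0 := by
    unfold dg
    rw [Finset.card_eq_zero, Finset.filter_eq_empty_iff]
    exact fun k hk => hzA k hk
  have hdisj : Disjoint (insert z K) (Finset.univ.filter fun w => w ∉ K ∧ dg G K w = 3) := by
    rw [Finset.disjoint_left]
    intro t ht ht'
    rw [Finset.mem_filter] at ht'
    rcases Finset.mem_insert.mp ht with rfl | ht
    · omega
    · exact ht'.2.1 ht
  have hdz := Finset.card_le_card hNz
  rw [Finset.card_sdiff_of_subset (Finset.subset_univ _), Finset.card_union_of_disjoint hdisj,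
    Finset.card_insert_of_notMem hzK, h4, huniv] at hdz
  have hdz' : dg G Finset.univ z ≤ Fintype.card V - (4 + 1 +
      (Finset.univ.filter fun w => w ∉ K ∧ dg G K w = 3).card) := hdz
  by_cases h6 : Fintype.card V ≤ 6
  · have h1 : ∀ w ∈ Finset.univ.erase z, dg G Finset.univ w ≤ Fintype.card V - 2 := by
      intro w hw
      rw [Finset.mem_erase] at hw
      by_cases hwK : w ∈ K
      · have := dg_le_two (G := G) (Finset.mem_univ w) (Finset.mem_univ z) hw.1
          fun h => hzA w hwK h.symm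
        omega
      · obtain ⟨k, hk, hwk⟩ : ∃ k ∈ K, ¬ G.Adj w k := by
          by_contra h
          push Not at h
          have h2 := dg_kfour hF hK h4 w
          unfold dg at h2
          rw [Finset.filter_true_of_mem h] at h2
          omega
        have hwk' : w ≠ k := fun h => hwK (h ▸ hk)
        have := dg_le_two (G := G) (Finset.mem_univ w) (Finset.mem_univ k) hwk' hwk
        omega
    have h2 := Finset.sum_le_card_nsmul (Finset.univ.erase z)
      (fun w => dg G Finset.univ w) _ h1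
    have h3 : DD G Finset.univ = ∑ w ∈ Finset.univ.erase z, dg G Finset.univ w +
        dg G Finset.univ z := by
      unfold DD
      rw [Finset.sum_erase_add _ _ (Finset.mem_univ z)]
    rw [Finset.card_erase_of_mem (Finset.mem_univ z), huniv, smul_eq_mul] at h2
    have h5 : Fintype.card V = 5 ∨ Fintype.card V = 6 := by omega
    rcases h5 with h5 | h5
    · rw [h5] at h2 hD hdz'
      norm_num at h2 hD
      omega
    · rw [h5] at h2 hD hdz'
      norm_num at h2 hD
      omega
  · obtain ⟨m, hm⟩ : ∃ m, Fintype.card V = m + 6 + 1 := ⟨Fintype.card V - 7, by omega⟩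
    have hT := T_succ (m + 6)
    rw [hm] at hD hdz'
    have hdeg : ∀ v : V, m + 7 ≤ dg G Finset.univ v + (m + 6 + 3) / 3 := by
      intro v
      by_contra hlt
      have h1 := DD_erase (G := G) (Finset.mem_univ v)
      have h2 : ((Finset.univ : Finset V).erase v).card = m + 6 := by
        rw [Finset.card_erase_of_mem (Finset.mem_univ v), huniv, hm]
        rfl
      have h3 := claim_A hF m h2
      omega
    have h1 := sum_kfour hF hK h4 (Finset.subset_univ K)
    have h2 : K.card • (m + 7 - (m + 6 + 3) / 3) ≤ ∑ k ∈ K, dg G Finset.univ k := by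
      refine Finset.card_nsmul_le_sum _ _ _ fun k hk => ?_
      have := hdeg k
      omega
    rw [h4, smul_eq_mul] at h2
    rw [huniv, hm] at h1
    have h3 := hdeg z
    omega

/-- Connected graphs with four pairwise adjacent vertices and many edges. -/
theorem kfour_mob [Fintype V] [DecidableRel G.Adj] (hG : G.Connected)
    (h4 : ∃ K : Finset V, G.IsClique (K : Set V) ∧ K.card = 4)
    (hD : 2 * (Fintype.card V * Fintype.card V / 3) ≤ DD G Finset.univ) : 3 ≤ mob G := by
  by_cases hF : FF G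
  · rcases hF with ⟨K, hK, h5⟩ | ⟨a, x, b, y, c, d, h⟩
    · exact kfive_mob hG hK h5
    · exact oct_mob hG h
  · obtain ⟨K, hK, hc4⟩ := h4
    obtain ⟨B, hB, hc⟩ := Finset.exists_subset_card_eq (by omega : 3 ≤ K.card)
    refine three_le_mob (isGP_clique hK hB) hc fun p => ?_
    obtain ⟨u, v, h⟩ := claim_B hG hF hK hc4 hB hc hD p
    exact ⟨_, by simp, h.2.2.2.2⟩

end Q82.Mob
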