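import Pool.Agent.Q82.Mob.Triple

/-!
# Graphs with an induced complete multipartite graph with parts of sizes 2, 2, 1, 1
-/

set_option autoImplicit false

open SimpleGraph

namespace Q82.Mob

universe u

variable {V : Type u} {G : SimpleGraph V}

/-- The vertices `a x | b y | c | d` induce a complete multipartite graph. -/
structure Oct (G : SimpleGraph V) (a x b y c d : V) : Prop where
  ax : a ≠ x
  nax : ¬ G.Adj a x
  hby : b ≠ y
  nby : ¬ G.Adj b y
  ab : G.Adj a b
  ay : G.Adj a y
  ac : G.Adj a c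
  ad : G.Adj a d
  xb : G.Adj x b
  xy : G.Adj x y
  xc : G.Adj x c
  xd : G.Adj x d
  bc : G.Adj b c
  bd : G.Adj b d
  yc : G.Adj y c
  yd : G.Adj y d
  cd : G.Adj c d

theorem Oct.swap {a x b y c d : V} (h : Oct G a x b y c d) : Oct G b y a x c d :=
  ⟨h.hby, h.nby, h.ax, h.nax, h.ab.symm, h.xb.symm, h.bc, h.bd, h.ay.symm, h.xy.symm, h.yc, h.yd,
    h.ac, h.ad, h.xc, h.xd, h.cd⟩

variable [DecidableEq V]

/-- All triangles can be reached. -/
def TR (G : SimpleGraph V) (B Q : Finset V) : Prop :=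
  ∀ u v w, u ∈ Q → v ∈ Q → w ∈ Q → G.Adj u v → G.Adj u w → G.Adj v w → Rch G B u v w

theorem oct_cn {a x b y c d : V} (h : Oct G a x b y c d) {T : Finset V}
    (hT : T ⊆ {a, x, b, y, c, d}) (hK : G.IsClique (T : Set V)) (h3 : T.card = 3) :
    Cn G {b, c, d} T := by
  have k1 : G.IsClique (({a, b, c, d} : Finset V) : Set V) := by
    intro s hs t ht hst
    simp only [Finset.coe_insert, Finset.coe_singleton, Set.mem_insert_iff,
      Set.mem_singleton_iff] at hs ht
    rcases hs with rfl | rfl | rfl | rfl <;> rcases ht with rfl | rfl | rfl | rfl <;>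
      first | exact absurd rfl hst | exact h.ab | exact h.ac | exact h.ad | exact h.bc |
        exact h.bd | exact h.cd | exact h.ab.symm | exact h.ac.symm | exact h.ad.symm |
        exact h.bc.symm | exact h.bd.symm | exact h.cd.symm
  have k2 : G.IsClique (({x, b, c, d} : Finset V) : Set V) := by
    intro s hs t ht hst
    simp only [Finset.coe_insert, Finset.coe_singleton, Set.mem_insert_iff,
      Set.mem_singleton_iff] at hs ht
    rcases hs with rfl | rfl | rfl | rfl <;> rcases ht with rfl | rfl | rfl | rfl <;>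
      first | exact absurd rfl hst | exact h.xb | exact h.xc | exact h.xd | exact h.bc |
        exact h.bd | exact h.cd | exact h.xb.symm | exact h.xc.symm | exact h.xd.symm |
        exact h.bc.symm | exact h.bd.symm | exact h.cd.symm
  have k3 : G.IsClique (({a, y, c, d} : Finset V) : Set V) := by
    intro s hs t ht hst
    simp only [Finset.coe_insert, Finset.coe_singleton, Set.mem_insert_iff,
      Set.mem_singleton_iff] at hs ht
    rcases hs with rfl | rfl | rfl | rfl <;> rcases ht with rfl | rfl | rfl | rfl <;>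
      first | exact absurd rfl hst | exact h.ay | exact h.ac | exact h.ad | exact h.yc |
        exact h.yd | exact h.cd | exact h.ay.symm | exact h.ac.symm | exact h.ad.symm |
        exact h.yc.symm | exact h.yd.symm | exact h.cd.symm
  have k4 : G.IsClique (({x, y, c, d} : Finset V) : Set V) := by
    intro s hs t ht hst
    simp only [Finset.coe_insert, Finset.coe_singleton, Set.mem_insert_iff,
      Set.mem_singleton_iff] at hs ht
    rcases hs with rfl | rfl | rfl | rfl <;> rcases ht with rfl | rfl | rfl | rfl <;>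
      first | exact absurd rfl hst | exact h.xy | exact h.xc | exact h.xd | exact h.yc |
        exact h.yd | exact h.cd | exact h.xy.symm | exact h.xc.symm | exact h.xd.symm |
        exact h.yc.symm | exact h.yd.symm | exact h.cd.symm
  have cB : ({b, c, d} : Finset V).card = 3 :=
    Finset.card_eq_three.mpr ⟨b, c, d, h.bc.ne, h.bd.ne, h.cd.ne, rfl⟩
  have cA : ({a, c, d} : Finset V).card = 3 :=
    Finset.card_eq_three.mpr ⟨a, c, d, h.ac.ne, h.ad.ne, h.cd.ne, rfl⟩
  have cX : ({x, c, d} : Finset V).card = 3 :=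
    Finset.card_eq_three.mpr ⟨x, c, d, h.xc.ne, h.xd.ne, h.cd.ne, rfl⟩
  have hax : a ∈ T → x ∈ T → False := fun h1 h2 => h.nax (hK h1 h2 h.ax)
  have hbyy : b ∈ T → y ∈ T → False := fun h1 h2 => h.nby (hK h1 h2 h.hby)
  have sB1 : ({b, c, d} : Finset V) ⊆ {a, b, c, d} := Finset.subset_insert _ _
  have sB2 : ({b, c, d} : Finset V) ⊆ {x, b, c, d} := Finset.subset_insert _ _
  have sA1 : ({a, c, d} : Finset V) ⊆ {a, b, c, d} := by
    intro w hw
    simp only [Finset.mem_insert, Finset.mem_singleton] at hw ⊢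
    tauto
  have sX2 : ({x, c, d} : Finset V) ⊆ {x, b, c, d} := by
    intro w hw
    simp only [Finset.mem_insert, Finset.mem_singleton] at hw ⊢
    tauto
  have sA3 : ({a, c, d} : Finset V) ⊆ {a, y, c, d} := by
    intro w hw
    simp only [Finset.mem_insert, Finset.mem_singleton] at hw ⊢
    tauto
  have sX4 : ({x, c, d} : Finset V) ⊆ {x, y, c, d} := by
    intro w hw
    simp only [Finset.mem_insert, Finset.mem_singleton] at hw ⊢
    tauto
  by_cases hx : x ∈ T <;> by_cases hy : y ∈ T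
  · have hs : T ⊆ {x, y, c, d} := by
      intro t ht
      have := hT ht
      simp only [Finset.mem_insert, Finset.mem_singleton] at this ⊢
      rcases this with rfl | rfl | rfl | rfl | rfl | rfl
      · exact (hax ht hx).elim
      · simp
      · exact (hbyy ht hy).elim
      · simp
      · simp
      · simp
    exact (clique_cn k2 _ sB2 sX2 (cB.trans cX.symm) rfl).trans
      (clique_cn k4 _ sX4 hs (cX.trans h3.symm) rfl)
  · have hs : T ⊆ {x, b, c, d} := by
      intro t ht
      have := hT ht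
      simp only [Finset.mem_insert, Finset.mem_singleton] at this ⊢
      rcases this with rfl | rfl | rfl | rfl | rfl | rfl
      · exact (hax ht hx).elim
      · simp
      · simp
      · exact absurd ht hy
      · simp
      · simp
    exact clique_cn k2 _ sB2 hs (cB.trans h3.symm) rfl
  · have hs : T ⊆ {a, y, c, d} := by
      intro t ht
      have := hT ht
      simp only [Finset.mem_insert, Finset.mem_singleton] at this ⊢
      rcases this with rfl | rfl | rfl | rfl | rfl | rfl
      · simp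
      · exact absurd ht hx
      · exact (hbyy ht hy).elim
      · simp
      · simp
      · simp
    exact (clique_cn k1 _ sB1 sA1 (cB.trans cA.symm) rfl).trans
      (clique_cn k3 _ sA3 hs (cA.trans h3.symm) rfl)
  · have hs : T ⊆ {a, b, c, d} := by
      intro t ht
      have := hT ht
      simp only [Finset.mem_insert, Finset.mem_singleton] at this ⊢
      rcases this with rfl | rfl | rfl | rfl | rfl | rfl
      · simp
      · exact absurd ht hx
      · simp
      · exact absurd ht hy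
      · simp
      · simp
    exact clique_cn k1 _ sB1 hs (cB.trans h3.symm) rfl

theorem oct_TR {a x b y c d : V} (h : Oct G a x b y c d) :
    TR G {b, c, d} {a, x, b, y, c, d} := by
  intro u v w hu hv hw huv huw hvw
  refine ⟨huv.ne, huw.ne, hvw.ne, gpc_clique huv huw hvw, oct_cn h ?_ ?_ ?_⟩
  · intro t ht
    rw [Finset.mem_insert, Finset.mem_insert, Finset.mem_singleton] at ht
    rcases ht with rfl | rfl | rfl <;> assumption
  · intro s hs t ht hst
    simp only [Finset.coe_insert, Finset.coe_singleton, Set.mem_insert_iff,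
      Set.mem_singleton_iff] at hs ht
    rcases hs with rfl | rfl | rfl <;> rcases ht with rfl | rfl | rfl <;>
      first | exact absurd rfl hst | assumption | exact huv.symm | exact huw.symm |
        exact hvw.symm
  · exact Finset.card_eq_three.mpr ⟨u, v, w, huv.ne, huw.ne, hvw.ne, rfl⟩

/-- The reachable triples with a vertex at distance `k` from `Q`. -/
def AA (G : SimpleGraph V) (B : Finset V) (a x b y c d : V) (k : ℕ) (p : V) : Prop :=
  (∃ u ∈ ({a, x, b, y, c, d} : Finset V), ∃ v ∈ ({a, x, b, y, c, d} : Finset V), G.Adj u v ∧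
    G.dist p u = k ∧ G.dist p v = k ∧ Rch G B p u v) ∨
  (G.dist p a ≤ k + 1 ∧ G.dist p x ≤ k + 1 ∧ Rch G B p a x) ∨
  (G.dist p b ≤ k + 1 ∧ G.dist p y ≤ k + 1 ∧ Rch G B p b y) ∨
  (G.dist p c = k + 1 ∧ G.dist p d = k + 1 ∧ Rch G B p c d)

theorem oct_two (hG : G.Connected) {B : Finset V} {a x s t p : V} (hax : a ≠ x)
    (nax : ¬ G.Adj a x) (hsa : G.Adj s a) (hta : G.Adj t a) (htx : G.Adj t x) (hsx : G.Adj s x)
    (hst : G.Adj s t) (hps : G.Adj p s) (hpt : ¬ G.Adj p t) (hpt' : p ≠ t) (hpa : ¬ G.Adj p a)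
    (hpa' : p ≠ a) (hpx : ¬ G.Adj p x) (hpx' : p ≠ x) (h : Rch G B s a t) :
    G.dist p a = 2 ∧ G.dist p x = 2 ∧ Rch G B p a x := by
  have e1 := dist_two hG hps hsa hpa' hpa
  have e2 := dist_two hG hps hsx hpx' hpx
  have e3 := dist_two hG hps hst hpt' hpt
  have e4 := dist_two hG hta.symm htx hax nax
  have e5 := dist_one hta.symm
  refine ⟨e1, e2, ?_⟩
  have h1 : Rch G B p a t := h.step hps.symm hpa' hpt' (by refine ⟨?_, ?_, ?_⟩ <;> omega)
  exact h1.step3 htx hpx' hax (by refine ⟨?_, ?_, ?_⟩ <;> omega)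

/-- Neighbours of `Q` which are not adjacent to `a` and `x`. -/
theorem oct_base_two (hG : G.Connected) {B Q : Finset V} {a x b y c d : V}
    (h : Oct G a x b y c d) (hT : TR G B Q) (ha : a ∈ Q) (hx : x ∈ Q) (hb : b ∈ Q) (hy : y ∈ Q)
    (hc : c ∈ Q) (hd : d ∈ Q) {p s₀ : V} (hpQ : p ∉ Q)
    (hs₀ : s₀ = b ∨ s₀ = y ∨ s₀ = c ∨ s₀ = d) (hps₀ : G.Adj p s₀)
    (hpa : ¬ G.Adj p a) (hpx : ¬ G.Adj p x) :
    (∃ u ∈ Q, ∃ v ∈ Q, G.Adj u v ∧ G.dist p u = 1 ∧ G.dist p v = 1 ∧ Rch G B p u v) ∨
      (G.dist p a = 2 ∧ G.dist p x = 2 ∧ Rch G B p a x) := by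
  have hne : ∀ u ∈ Q, p ≠ u := fun u hu h => hpQ (h ▸ hu)
  by_cases hpc : G.Adj p c
  · by_cases hpd : G.Adj p d
    · by_cases hpb : G.Adj p b
      · left
        refine ⟨b, hb, c, hc, h.bc, dist_one hpb, dist_one hpc, ?_⟩
        exact (hT d b c hd hb hc h.bd.symm h.cd.symm h.bc).step hpd.symm (hne b hb) (hne c hc)
          (gpc_clique hpb hpc h.bc)
      · right
        exact oct_two hG h.ax h.nax h.ac.symm h.ab.symm h.xb.symm h.xc.symm h.bc.symm hpc hpb
          (hne b hb) hpa (hne a ha) hpx (hne x hx)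
          (hT c a b hc ha hb h.ac.symm h.bc.symm h.ab)
    · right
      exact oct_two hG h.ax h.nax h.ac.symm h.ad.symm h.xd.symm h.xc.symm h.cd hpc hpd
        (hne d hd) hpa (hne a ha) hpx (hne x hx)
        (hT c a d hc ha hd h.ac.symm h.cd h.ad)
  · right
    rcases hs₀ with rfl | rfl | rfl | rfl
    · exact oct_two hG h.ax h.nax h.ab.symm h.ac.symm h.xc.symm h.xb.symm h.bc hps₀ hpc
        (hne c hc) hpa (hne a ha) hpx (hne x hx)
        (hT _ a c hb ha hc h.ab.symm h.bc h.ac)
    · exact oct_two hG h.ax h.nax h.ay.symm h.ac.symm h.xc.symm h.xy.symm h.yc hps₀ hpc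
        (hne c hc) hpa (hne a ha) hpx (hne x hx)
        (hT _ a c hy ha hc h.ay.symm h.yc h.ac)
    · exact absurd hps₀ hpc
    · exact oct_two hG h.ax h.nax h.ad.symm h.ac.symm h.xc.symm h.xd.symm h.cd.symm hps₀ hpc
        (hne c hc) hpa (hne a ha) hpx (hne x hx)
        (hT _ a c hd ha hc h.ad.symm h.cd.symm h.ac)

theorem oct_base (hG : G.Connected) {B : Finset V} {a x b y c d : V}
    (h : Oct G a x b y c d) (hT : TR G B {a, x, b, y, c, d}) {p : V}
    (hp : Lv G {a, x, b, y, c, d} p 1) : AA G B a x b y c d 1 p := by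
  have hpQ : p ∉ ({a, x, b, y, c, d} : Finset V) := Lv.notMem (k := 0) hp
  have ha : a ∈ ({a, x, b, y, c, d} : Finset V) := by simp
  have hx : x ∈ ({a, x, b, y, c, d} : Finset V) := by simp
  have hb : b ∈ ({a, x, b, y, c, d} : Finset V) := by simp
  have hy : y ∈ ({a, x, b, y, c, d} : Finset V) := by simp
  have hc : c ∈ ({a, x, b, y, c, d} : Finset V) := by simp
  have hd : d ∈ ({a, x, b, y, c, d} : Finset V) := by simp
  have hne : ∀ u ∈ ({a, x, b, y, c, d} : Finset V), p ≠ u := fun u hu h => hpQ (h ▸ hu)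
  obtain ⟨s₀, hs₀, hd₀⟩ := hp.2
  have hps₀ : G.Adj p s₀ := dist_eq_one_iff_adj.mp hd₀
  rw [Finset.mem_insert, Finset.mem_insert, Finset.mem_insert, Finset.mem_insert,
    Finset.mem_insert, Finset.mem_singleton] at hs₀
  by_cases h1 : ¬ G.Adj p a ∧ ¬ G.Adj p x
  · have hs : s₀ = b ∨ s₀ = y ∨ s₀ = c ∨ s₀ = d := by
      rcases hs₀ with rfl | rfl | hs
      · exact absurd hps₀ h1.1
      · exact absurd hps₀ h1.2
      · exact hs
    rcases oct_base_two hG h hT ha hx hb hy hc hd hpQ hs hps₀ h1.1 h1.2 with h2 | h2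
    · exact Or.inl h2
    · exact Or.inr (Or.inl ⟨h2.1.le, h2.2.1.le, h2.2.2⟩)
  · by_cases h2 : ¬ G.Adj p b ∧ ¬ G.Adj p y
    · have hs : s₀ = a ∨ s₀ = x ∨ s₀ = c ∨ s₀ = d := by
        rcases hs₀ with rfl | rfl | rfl | rfl | hs
        · simp
        · simp
        · exact absurd hps₀ h2.1
        · exact absurd hps₀ h2.2
        · exact Or.inr (Or.inr hs)
      rcases oct_base_two hG h.swap hT hb hy ha hx hc hd hpQ hs hps₀ h2.1 h2.2 with h3 | h3
      · exact Or.inl h3
      · exact Or.inr (Or.inr (Or.inl ⟨h3.1.le, h3.2.1.le, h3.2.2⟩))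
    · obtain ⟨s, hsQ, hps, hsb, hsy, hsc, hsd⟩ : ∃ s ∈ ({a, x, b, y, c, d} : Finset V),
          G.Adj p s ∧ G.Adj s b ∧ G.Adj s y ∧ G.Adj s c ∧ G.Adj s d := by
        by_cases hpa : G.Adj p a
        · exact ⟨a, ha, hpa, h.ab, h.ay, h.ac, h.ad⟩
        · exact ⟨x, hx, by
            by_contra hpx
            exact h1 ⟨hpa, hpx⟩, h.xb, h.xy, h.xc, h.xd⟩
      obtain ⟨t, htQ, hpt, hst, htc, htd⟩ : ∃ t ∈ ({a, x, b, y, c, d} : Finset V),
          G.Adj p t ∧ G.Adj s t ∧ G.Adj t c ∧ G.Adj t d := by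
        by_cases hpb : G.Adj p b
        · exact ⟨b, hb, hpb, hsb, h.bc, h.bd⟩
        · exact ⟨y, hy, by
            by_contra hpy
            exact h2 ⟨hpb, hpy⟩, hsy, h.yc, h.yd⟩
      by_cases hpc : G.Adj p c
      · left
        refine ⟨s, hsQ, t, htQ, hst, dist_one hps, dist_one hpt, ?_⟩
        exact (hT c s t hc hsQ htQ hsc.symm htc.symm hst).step hpc.symm (hne s hsQ) (hne t htQ)
          (gpc_clique hps hpt hst)
      · by_cases hpd : G.Adj p d
        · left
          refine ⟨s, hsQ, t, htQ, hst, dist_one hps, dist_one hpt, ?_⟩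
          exact (hT d s t hd hsQ htQ hsd.symm htd.symm hst).step hpd.symm (hne s hsQ)
            (hne t htQ) (gpc_clique hps hpt hst)
        · have e1 := dist_two hG hps hsc (hne c hc) hpc
          have e2 := dist_two hG hps hsd (hne d hd) hpd
          have e3 := dist_one h.cd
          refine Or.inr (Or.inr (Or.inr ⟨e1, e2, ?_⟩))
          exact (hT s c d hsQ hc hd hsc hsd h.cd).step hps.symm (hne c hc) (hne d hd)
            (by refine ⟨?_, ?_, ?_⟩ <;> omega)

theorem oct_level (hG : G.Connected) {B : Finset V} {a x b y c d : V}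
    (h : Oct G a x b y c d) (hT : TR G B {a, x, b, y, c, d}) (k : ℕ) : ∀ {p : V},
    Lv G {a, x, b, y, c, d} p (k + 1) → AA G B a x b y c d (k + 1) p := by
  induction k with
  | zero => exact fun hp => oct_base hG h hT hp
  | succ k ih =>
    intro p hp
    have ha : a ∈ ({a, x, b, y, c, d} : Finset V) := by simp
    have hx : x ∈ ({a, x, b, y, c, d} : Finset V) := by simp
    have hb : b ∈ ({a, x, b, y, c, d} : Finset V) := by simp
    have hy : y ∈ ({a, x, b, y, c, d} : Finset V) := by simp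
    have hc : c ∈ ({a, x, b, y, c, d} : Finset V) := by simp
    have hd : d ∈ ({a, x, b, y, c, d} : Finset V) := by simp
    have eax := dist_two hG h.ac h.xc.symm h.ax h.nax
    have eby := dist_two hG h.bc h.yc.symm h.hby h.nby
    have ecd := dist_one h.cd
    by_contra hno
    have key : ∀ q, G.Adj p q → Lv G {a, x, b, y, c, d} q (k + 1) →
        G.dist q c = k + 2 ∧ G.dist q d = k + 2 ∧ Rch G B q c d := by
      intro q hpq hq
      rcases ih hq with ⟨u, hu, v, hv, huv, h1, h2, h3⟩ | ⟨h1, h2, h3⟩ | ⟨h1, h2, h3⟩ | h1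
      · have a1 := hp.pred' hG hq hpq hu h1
        have a2 := hp.pred' hG hq hpq hv h2
        have a5 := dist_one huv
        exact absurd (Or.inl ⟨u, hu, v, hv, huv, a1, a2, h3.step hpq.symm (hp.ne hu) (hp.ne hv)
          (by refine ⟨?_, ?_, ?_⟩ <;> omega)⟩) hno
      · have a1 := dist_adj hG hpq a
        have a2 := dist_adj hG hpq x
        have a3 := hp.1 a ha
        have a4 := hp.1 x hx
        exact absurd (Or.inr (Or.inl ⟨by omega, by omega, h3.step hpq.symm (hp.ne ha)
          (hp.ne hx) (by refine ⟨?_, ?_, ?_⟩ <;> omega)⟩)) hno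
      · have a1 := dist_adj hG hpq b
        have a2 := dist_adj hG hpq y
        have a3 := hp.1 b hb
        have a4 := hp.1 y hy
        exact absurd (Or.inr (Or.inr (Or.inl ⟨by omega, by omega, h3.step hpq.symm (hp.ne hb)
          (hp.ne hy) (by refine ⟨?_, ?_, ?_⟩ <;> omega)⟩))) hno
      · exact h1
    have kc : G.dist p c ≠ k + 2 := by
      intro h1
      obtain ⟨q, hq, hlq, hqc, -⟩ := hp.pred hG hc h1
      have := (key q hq hlq).1
      omega
    have kd : G.dist p d ≠ k + 2 := by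
      intro h1
      obtain ⟨q, hq, hlq, hqc, -⟩ := hp.pred hG hd h1
      have := (key q hq hlq).2.1
      omega
    obtain ⟨w, hw, hw'⟩ := hp.2
    obtain ⟨q, hq, hlq, -, -⟩ := hp.pred hG hw hw'
    obtain ⟨g1, g2, g3⟩ := key q hq hlq
    have a1 := dist_adj hG hq c
    have a2 := dist_adj hG hq d
    have a3 := hp.1 c hc
    have a4 := hp.1 d hd
    exact hno (Or.inr (Or.inr (Or.inr ⟨by omega, by omega, g3.step hq.symm (hp.ne hc)
      (hp.ne hd) (by refine ⟨?_, ?_, ?_⟩ <;> omega)⟩)))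

theorem oct_mob [Fintype V] (hG : G.Connected) {a x b y c d : V} (h : Oct G a x b y c d) :
    3 ≤ mob G := by
  have hT := oct_TR h
  have cB : ({b, c, d} : Finset V).card = 3 :=
    Finset.card_eq_three.mpr ⟨b, c, d, h.bc.ne, h.bd.ne, h.cd.ne, rfl⟩
  refine three_le_mob (isGP_triple (gpc_clique h.bc h.bd h.cd)) cB fun p => ?_
  suffices hs : ∃ u v, Rch G {b, c, d} p u v by
    obtain ⟨u, v, h⟩ := hs
    exact ⟨_, by simp, h.2.2.2.2⟩
  obtain ⟨k, hk⟩ := exists_Lv (G := G) (Q := {a, x, b, y, c, d}) ⟨a, by simp⟩ p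
  rcases k with _ | k
  · have hp := hk.zero hG
    rw [Finset.mem_insert, Finset.mem_insert, Finset.mem_insert, Finset.mem_insert,
      Finset.mem_insert, Finset.mem_singleton] at hp
    rcases hp with rfl | rfl | rfl | rfl | rfl | rfl
    · exact ⟨c, d, hT _ _ _ (by simp) (by simp) (by simp) h.ac h.ad h.cd⟩
    · exact ⟨c, d, hT _ _ _ (by simp) (by simp) (by simp) h.xc h.xd h.cd⟩
    · exact ⟨c, d, hT _ _ _ (by simp) (by simp) (by simp) h.bc h.bd h.cd⟩
    · exact ⟨c, d, hT _ _ _ (by simp) (by simp) (by simp) h.yc h.yd h.cd⟩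
    · exact ⟨a, b, hT _ _ _ (by simp) (by simp) (by simp) h.ac.symm h.bc.symm h.ab⟩
    · exact ⟨a, b, hT _ _ _ (by simp) (by simp) (by simp) h.ad.symm h.bd.symm h.ab⟩
  · rcases oct_level hG h hT k hk with ⟨u, -, v, -, -, -, -, h⟩ | ⟨-, -, h⟩ | ⟨-, -, h⟩ |
      ⟨-, -, h⟩ <;> exact ⟨_, _, h⟩

end Q82.Mob
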