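import Pool.Agent.Q82.Mob.Defs

/-!
# Triples in general position, levels and cliques
-/

set_option autoImplicit false

open SimpleGraph

namespace Q82.Mob

universe u

variable {V : Type u} [DecidableEq V] {G : SimpleGraph V}

/-- The distance condition for three vertices to be in general position. -/
def Gpc (G : SimpleGraph V) (p u v : V) : Prop :=
  G.dist p u + G.dist u v ≠ G.dist p v ∧ G.dist p v + G.dist u v ≠ G.dist p u ∧
    G.dist p u + G.dist p v ≠ G.dist u v

theorem Gpc.swap12 {p u v : V} (h : Gpc G p u v) : Gpc G u p v := by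
  have c : G.dist u p = G.dist p u := dist_comm
  obtain ⟨h1, h2, h3⟩ := h
  refine ⟨?_, ?_, ?_⟩ <;> omega

theorem Gpc.swap23 {p u v : V} (h : Gpc G p u v) : Gpc G p v u := by
  have c : G.dist v u = G.dist u v := dist_comm
  obtain ⟨h1, h2, h3⟩ := h
  refine ⟨?_, ?_, ?_⟩ <;> omega

theorem isGP_triple {p u v : V} (h : Gpc G p u v) : IsGP G {p, u, v} := by
  refine isGP_of_dist ?_
  intro x hx y hy z hz hxy hyz hxz _ _
  simp only [Finset.mem_insert, Finset.mem_singleton] at hx hy hz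
  have c1 : G.dist u p = G.dist p u := dist_comm
  have c2 : G.dist v p = G.dist p v := dist_comm
  have c3 : G.dist v u = G.dist u v := dist_comm
  obtain ⟨h1, h2, h3⟩ := h
  rcases hx with rfl | rfl | rfl <;> rcases hy with rfl | rfl | rfl <;>
    rcases hz with rfl | rfl | rfl <;> first | exact absurd rfl ‹_› | omega

/-- The triple `{p, u, v}` is in general position and can be reached from `B`. -/
def Rch (G : SimpleGraph V) (B : Finset V) (p u v : V) : Prop :=
  p ≠ u ∧ p ≠ v ∧ u ≠ v ∧ Gpc G p u v ∧ Cn G B {p, u, v}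

theorem Rch.swap12 {B : Finset V} {p u v : V} (h : Rch G B p u v) : Rch G B u p v := by
  obtain ⟨h1, h2, h3, h4, h5⟩ := h
  refine ⟨h1.symm, h3, h2, h4.swap12, ?_⟩
  rwa [Finset.insert_comm] at h5

theorem Rch.swap23 {B : Finset V} {p u v : V} (h : Rch G B p u v) : Rch G B p v u := by
  obtain ⟨h1, h2, h3, h4, h5⟩ := h
  refine ⟨h2, h1, h3.symm, h4.swap23, ?_⟩
  rwa [Finset.pair_comm] at h5

theorem Rch.step {B : Finset V} {p q u v : V} (h : Rch G B p u v) (hpq : G.Adj p q)
    (hqu : q ≠ u) (hqv : q ≠ v) (hg : Gpc G q u v) : Rch G B q u v := by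
  obtain ⟨h1, h2, h3, h4, h5⟩ := h
  refine ⟨hqu, hqv, h3, hg, h5.tail ⟨isGP_triple h4, p, by simp, q, ?_, hpq, ?_,
    isGP_triple hg⟩⟩
  · simp only [Finset.mem_insert, Finset.mem_singleton, not_or]
    exact ⟨hpq.ne.symm, hqu, hqv⟩
  · rw [Finset.erase_insert]
    simp only [Finset.mem_insert, Finset.mem_singleton, not_or]
    exact ⟨h1, h2⟩

theorem Rch.step3 {B : Finset V} {p u v w : V} (h : Rch G B p u v) (hvw : G.Adj v w)
    (hpw : p ≠ w) (huw : u ≠ w) (hg : Gpc G p u w) : Rch G B p u w := by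
  have h1 : Rch G B v p u := h.swap23.swap12
  have h2 : Rch G B w p u := h1.step hvw hpw.symm huw.symm hg.swap23.swap12
  exact h2.swap12.swap23

theorem Rch.step2 {B : Finset V} {p u v w : V} (h : Rch G B p u v) (huw : G.Adj u w)
    (hpw : p ≠ w) (hvw : v ≠ w) (hg : Gpc G p w v) : Rch G B p w v :=
  (h.swap23.step3 huw hpw hvw hg.swap23).swap23

theorem dist_one {x y : V} (h : G.Adj x y) : G.dist x y = 1 := dist_eq_one_iff_adj.mpr h

theorem dist_pos' (hG : G.Connected) {x y : V} (h : x ≠ y) : 0 < G.dist x y :=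
  hG.pos_dist_of_ne h

theorem dist_adj (hG : G.Connected) {p q : V} (h : G.Adj p q) (u : V) :
    G.dist p u ≤ G.dist q u + 1 := by
  have := hG.dist_triangle (u := p) (v := q) (w := u)
  rw [dist_one h] at this
  omega

theorem dist_adj' (hG : G.Connected) {p q : V} (h : G.Adj p q) (u : V) :
    G.dist q u ≤ G.dist p u + 1 := dist_adj hG h.symm u

theorem dist_two (hG : G.Connected) {p s u : V} (h1 : G.Adj p s) (h2 : G.Adj s u) (h3 : p ≠ u)
    (h4 : ¬ G.Adj p u) : G.dist p u = 2 := by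
  have h5 := dist_adj hG h1 u
  rw [dist_one h2] at h5
  have h6 := dist_pos' hG h3
  have h7 : G.dist p u ≠ 1 := fun h => h4 (dist_eq_one_iff_adj.mp h)
  omega

theorem exists_pred (hG : G.Connected) {p u : V} (h : p ≠ u) :
    ∃ q, G.Adj p q ∧ G.dist q u + 1 = G.dist p u := by
  obtain ⟨w, hw⟩ := (hG.preconnected p u).exists_walk_length_eq_dist
  cases w with
  | nil => exact absurd rfl h
  | cons h' w' =>
    rename_i q
    refine ⟨q, h', ?_⟩
    have h1 := dist_le w'
    have h2 := dist_adj hG h' u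
    rw [Walk.length_cons] at hw
    omega

/-- The vertex `p` is at distance `k` from the set `Q`. -/
def Lv (G : SimpleGraph V) (Q : Finset V) (p : V) (k : ℕ) : Prop :=
  (∀ u ∈ Q, k ≤ G.dist p u) ∧ ∃ u ∈ Q, G.dist p u = k

theorem exists_Lv {Q : Finset V} (hQ : Q.Nonempty) (p : V) : ∃ k, Lv G Q p k := by
  obtain ⟨u, hu, h⟩ := Q.exists_min_image (fun u => G.dist p u) hQ
  exact ⟨G.dist p u, h, u, hu, rfl⟩

theorem Lv.pred (hG : G.Connected) {Q : Finset V} {p u : V} {k : ℕ} (h : Lv G Q p (k + 1))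
    (hu : u ∈ Q) (hd : G.dist p u = k + 1) :
    ∃ q, G.Adj p q ∧ Lv G Q q k ∧ G.dist q u = k ∧
      ∀ w ∈ Q, G.dist q w = k → G.dist p w = k + 1 := by
  have hne : p ≠ u := by
    rintro rfl
    rw [dist_self] at hd
    omega
  obtain ⟨q, hq, hqd⟩ := exists_pred hG hne
  refine ⟨q, hq, ⟨fun w hw => ?_, u, hu, by omega⟩, by omega, fun w hw hw' => ?_⟩
  · have h1 := h.1 w hw
    have h2 := dist_adj hG hq w
    omega
  · have h1 := h.1 w hw
    have h2 := dist_adj hG hq w
    omega

theorem Lv.pred' (hG : G.Connected) {Q : Finset V} {p q : V} {k : ℕ} (h : Lv G Q p (k + 1))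
    (hq : Lv G Q q k) (hpq : G.Adj p q) {w : V} (hw : w ∈ Q) (hw' : G.dist q w = k) :
    G.dist p w = k + 1 := by
  have h1 := h.1 w hw
  have h2 := dist_adj hG hpq w
  omega

theorem Lv.zero (hG : G.Connected) {Q : Finset V} {p : V} (h : Lv G Q p 0) : p ∈ Q := by
  obtain ⟨u, hu, hd⟩ := h.2
  rw [hG.dist_eq_zero_iff] at hd
  exact hd ▸ hu

theorem Lv.notMem {Q : Finset V} {p : V} {k : ℕ} (h : Lv G Q p (k + 1)) : p ∉ Q := by
  intro hp
  have := h.1 p hp
  rw [dist_self] at this
  omega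

theorem Lv.ne {Q : Finset V} {p u : V} {k : ℕ} (h : Lv G Q p (k + 1)) (hu : u ∈ Q) : p ≠ u := by
  rintro rfl
  exact h.notMem hu

/-- Subsets of cliques are in general position. -/
theorem isGP_clique {K T : Finset V} (hK : G.IsClique (K : Set V)) (hT : T ⊆ K) : IsGP G T := by
  refine isGP_of_dist ?_
  intro x hx y hy z hz hxy hyz hxz _ _
  rw [dist_one (hK (hT hx) (hT hy) hxy), dist_one (hK (hT hy) (hT hz) hyz),
    dist_one (hK (hT hx) (hT hz) hxz)]
  omega

theorem clique_cn {K : Finset V} (hK : G.IsClique (K : Set V)) (n : ℕ) :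
    ∀ {T T' : Finset V}, T ⊆ K → T' ⊆ K → T.card = T'.card → (T \ T').card = n → Cn G T T' := by
  induction n with
  | zero =>
    intro T T' hT hT' hc h0
    have h1 : T ⊆ T' := by
      rw [Finset.card_eq_zero] at h0
      exact Finset.sdiff_eq_empty_iff_subset.mp h0
    rw [Finset.eq_of_subset_of_card_le h1 hc.ge]
    exact Relation.ReflTransGen.refl
  | succ n ih =>
    intro T T' hT hT' hc h0
    obtain ⟨x, hx⟩ : (T \ T').Nonempty := by
      rw [← Finset.card_pos]
      omega
    obtain ⟨y, hy⟩ : (T' \ T).Nonempty := by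
      rw [← Finset.card_pos, Finset.card_sdiff_comm hc.symm]
      omega
    rw [Finset.mem_sdiff] at hx hy
    have hxy : x ≠ y := fun h => hx.2 (h ▸ hy.1)
    have hsub : insert y (T.erase x) ⊆ K := by
      intro w hw
      rcases Finset.mem_insert.mp hw with rfl | hw
      · exact hT' hy.1
      · exact hT (Finset.mem_of_mem_erase hw)
    have hcard : (insert y (T.erase x)).card = T.card := by
      rw [Finset.card_insert_of_notMem, Finset.card_erase_of_mem hx.1]
      · have : 0 < T.card := Finset.card_pos.mpr ⟨x, hx.1⟩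
        omega
      · intro h
        exact hy.2 (Finset.mem_of_mem_erase h)
    refine Relation.ReflTransGen.head ⟨isGP_clique hK hT, x, hx.1, y, hy.2,
      hK (hT hx.1) (hT' hy.1) hxy, rfl, isGP_clique hK hsub⟩ (ih hsub hT' (hcard.trans hc) ?_)
    have he : insert y (T.erase x) \ T' = (T \ T').erase x := by
      ext w
      simp only [Finset.mem_sdiff, Finset.mem_insert, Finset.mem_erase]
      constructor
      · rintro ⟨rfl | h1, h2⟩
        · exact absurd hy.1 h2
        · exact ⟨h1.1, h1.2, h2⟩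
      · rintro ⟨h1, h2, h3⟩
        exact ⟨Or.inr ⟨h1, h2⟩, h3⟩
    rw [he, Finset.card_erase_of_mem (Finset.mem_sdiff.mpr hx), h0]
    rfl

theorem gpc_clique {p u v : V} (h1 : G.Adj p u) (h2 : G.Adj p v) (h3 : G.Adj u v) :
    Gpc G p u v := by
  refine ⟨?_, ?_, ?_⟩ <;> rw [dist_one h1, dist_one h2, dist_one h3] <;> omega

/-- All triangles in a clique can be reached from each other. -/
theorem rch_clique {K B : Finset V} (hK : G.IsClique (K : Set V)) (hB : B ⊆ K) (hc : B.card = 3)
    {p u v : V} (hp : p ∈ K) (hu : u ∈ K) (hv : v ∈ K) (h1 : p ≠ u) (h2 : p ≠ v) (h3 : u ≠ v) :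
    Rch G B p u v := by
  refine ⟨h1, h2, h3, gpc_clique (hK hp hu h1) (hK hp hv h2) (hK hu hv h3),
    clique_cn hK _ hB ?_ ?_ rfl⟩
  · intro w hw
    simp only [Finset.mem_insert, Finset.mem_singleton] at hw
    rcases hw with rfl | rfl | rfl <;> assumption
  · rw [hc]
    exact (Finset.card_eq_three.mpr ⟨p, u, v, h1, h2, h3, rfl⟩).symm

theorem three_le_mob [Fintype V] {B : Finset V} (hB : IsGP G B) (hc : B.card = 3)
    (h : ∀ p, ∃ T, p ∈ T ∧ Cn G B T) : 3 ≤ mob G := by
  rw [← hc]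
  exact card_le_mob (isMobile_of_Cn hB h)

end Q82.Mob
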