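import Pool.Agent.Q82.Mob.Disc
import Pool.Agent.Q82.Mob.KFour

/-!
# The three-partite Turán graph
-/

set_option autoImplicit false

open SimpleGraph

namespace Q82.Mob

universe u

theorem turan_adj {n : ℕ} {v w : Fin n} :
    (turanGraph n 3).Adj v w ↔ (v : ℕ) % 3 ≠ (w : ℕ) % 3 := Iff.rfl

theorem turan_connected {n : ℕ} (hn : 4 ≤ n) : (turanGraph n 3).Connected := by
  rw [connected_iff_exists_forall_reachable]
  refine ⟨⟨0, by omega⟩, fun w => ?_⟩
  by_cases h : (w : ℕ) % 3 = 0
  · have h1 : (turanGraph n 3).Adj ⟨0, by omega⟩ ⟨1, by omega⟩ := by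
      rw [turan_adj]
      norm_num
    have h2 : (turanGraph n 3).Adj ⟨1, by omega⟩ w := by
      rw [turan_adj, h]
      norm_num
    exact h1.reachable.trans h2.reachable
  · refine Adj.reachable ?_
    rw [turan_adj]
    simp only [Nat.zero_mod]
    omega

/-- Two vertices of one part and a vertex of another part are not in general position. -/
theorem turan_gp {n : ℕ} (hn : 4 ≤ n) {T : Finset (Fin n)} (hT : IsGP (turanGraph n 3) T)
    {x y z : Fin n} (hx : x ∈ T) (hy : y ∈ T) (hz : z ∈ T) (hxz : x ≠ z)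
    (h : (x : ℕ) % 3 = (z : ℕ) % 3) : (y : ℕ) % 3 = (x : ℕ) % 3 := by
  by_contra hne
  have hG := turan_connected hn
  have h1 : (turanGraph n 3).Adj x y := turan_adj.mpr (Ne.symm hne)
  have h2 : (turanGraph n 3).Adj y z := by
    rw [turan_adj, ← h]
    exact hne
  have h3 : ¬ (turanGraph n 3).Adj x z := fun h' => (turan_adj.mp h') h
  have e := dist_two hG h1 h2 hxz h3
  have := hT.dist_ne hx hy hz h1.ne h2.ne hxz h1.reachable h2.reachable
  rw [dist_one h1, dist_one h2, e] at this
  exact this rfl

/-- In a connected graph every pair of vertices is a mobile general position set. -/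
theorem pair_mobile {V : Type u} [DecidableEq V] [Fintype V] {G : SimpleGraph V}
    (hG : G.Connected) (s t : V) (hst : s ≠ t) : IsMobileGP G {s, t} := by
  refine isMobile_of_Cn (isGP_card_two Finset.card_le_two) fun w => ?_
  obtain ⟨v, -, -, hc⟩ := two_token (G := G) (R := ∅) hst (hG.preconnected s t)
    (fun u v _ _ _ => ⟨isGP_card_two Finset.card_le_two, Finset.notMem_empty _,
      Finset.notMem_empty _⟩) (hG.preconnected s w)
  exact ⟨_, Finset.mem_insert_self _ _, hc⟩

theorem turan_mob {n : ℕ} (hn : 4 ≤ n) : mob (turanGraph n 3) = 2 := by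
  have hG := turan_connected hn
  have hne : (⟨0, by omega⟩ : Fin n) ≠ ⟨1, by omega⟩ := by
    rw [Ne, Fin.mk.injEq]
    norm_num
  have hp := pair_mobile hG _ _ hne
  apply le_antisymm
  · have h2 : ∀ k, (∃ S : Finset (Fin n), IsMobileGP (turanGraph n 3) S ∧ S.card = k) →
        k ≤ 2 := by
      rintro k ⟨S, ⟨hS, l, hl, hv⟩, rfl⟩
      by_contra hk
      rw [not_le] at hk
      rcases l with _ | ⟨T, l⟩
      · have hall : ∀ v, v ∈ S := by
          intro v
          obtain ⟨T, hT, hvT⟩ := hv v
          rw [List.mem_singleton] at hT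
          exact hT ▸ hvT
        have := turan_gp hn hS (hall ⟨0, by omega⟩) (hall ⟨1, by omega⟩) (hall ⟨3, by omega⟩)
          (by
            rw [Ne, Fin.mk.injEq]
            norm_num) (by norm_num)
        norm_num at this
      · rw [List.isChain_cons_cons] at hl
        obtain ⟨⟨x, hx, y, hy, hxy, rfl, hT⟩, -⟩ := hl
        have h3 : 1 < (S.erase x).card := by
          rw [Finset.card_erase_of_mem hx]
          omega
        obtain ⟨u, hu, v, hv, huv⟩ := Finset.one_lt_card.mp h3
        have hyT : y ∈ insert y (S.erase x) := Finset.mem_insert_self _ _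
        have huT : u ∈ insert y (S.erase x) := Finset.mem_insert_of_mem hu
        have hvT : v ∈ insert y (S.erase x) := Finset.mem_insert_of_mem hv
        rw [Finset.mem_erase] at hu hv
        rw [turan_adj] at hxy
        have hyu : y ≠ u := fun h => hy (h ▸ hu.2)
        have hyv : y ≠ v := fun h => hy (h ▸ hv.2)
        have a1 := fun h => turan_gp hn hS hu.2 hx hv.2 huv h
        have a2 := fun h => turan_gp hn hT huT hyT hvT huv h
        have a3 := fun h => turan_gp hn hS hx hv.2 hu.2 (Ne.symm hu.1) h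
        have a4 := fun h => turan_gp hn hS hx hu.2 hv.2 (Ne.symm hv.1) h
        have a5 := fun h => turan_gp hn hT hyT hvT huT hyu h
        have a6 := fun h => turan_gp hn hT hyT huT hvT hyv h
        omega
    unfold mob
    exact csSup_le ⟨_, _, hp, rfl⟩ h2
  · rw [← Finset.card_pair hne]
    exact card_le_mob hp

theorem turan_edges (n : ℕ) : (turanGraph n 3).edgeFinset.card = n * n / 3 := by
  rw [card_edgeFinset_turanGraph]
  obtain ⟨m, hm⟩ : ∃ m, n = 3 * m ∨ n = 3 * m + 1 ∨ n = 3 * m + 2 := ⟨n / 3, by omega⟩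
  rcases hm with rfl | rfl | rfl
  · have e0 : 3 * m % 3 = 0 := by omega
    have e1 : (3 * m) ^ 2 = 9 * (m * m) := by ring
    have e2 : 3 * m * (3 * m) = 9 * (m * m) := by ring
    rw [e0, e1, e2]
    simp only [Nat.choose_eq_zero_of_lt (by norm_num : 0 < 2)]
    omega
  · have e0 : (3 * m + 1) % 3 = 1 := by omega
    have e1 : (3 * m + 1) ^ 2 = 9 * (m * m) + 6 * m + 1 := by ring
    have e2 : (3 * m + 1) * (3 * m + 1) = 9 * (m * m) + 6 * m + 1 := by ring
    rw [e0, e1, e2]
    simp only [Nat.choose_eq_zero_of_lt (by norm_num : 1 < 2)]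
    omega
  · have e0 : (3 * m + 2) % 3 = 2 := by omega
    have e1 : (3 * m + 2) ^ 2 = 9 * (m * m) + 12 * m + 4 := by ring
    have e2 : (3 * m + 2) * (3 * m + 2) = 9 * (m * m) + 12 * m + 4 := by ring
    rw [e0, e1, e2, Nat.choose_self]
    omega

end Q82.Mob
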